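import Mathlib

set_option autoImplicit false
set_option linter.unusedSectionVars false
set_option linter.unusedVariables false

/-!
Sylvester's four point problem over plane sets of finite area: the infimum of the probability that
four independent uniform points of `D` are in convex position is not attained.

Outline.
1. Four points are in convex position iff the product `F4` of their four orientations is positive.
2. (Sampling) For every absolutely continuous probability measure `μ` and every `ε > 0` some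
   admissible set `D'` has value at most `phi μ + ε`.  Hence a minimising set `D` is also a minimiser
   among absolutely continuous measures.
3. (Second variation) For `μ` uniform on a minimiser the pair kernel `k2` is conditionally positive
   semidefinite, also on finite sets of points of the support with self-interaction at most one.
4. (Blow-up) `k2 μ a (a + s • v)` extends continuously to `s = 0`, where it equals
   `m ^ 2 + (1 - m) ^ 2`, `m` being the mass to the left of the line through `a` with direction `v`.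
5. Clusters of points aligned with halving directions force `k2 ≤ 1/2` at density points, so all
   lines through a density point are halving; two density points then give an empty strip which
   contains a point of the support: contradiction.
-/

namespace Pool.Agent.Helper120.Sylvester

open MeasureTheory ProbabilityTheory

/-- orientation determinant of three points of the plane -/
def ori (a b c : ℝ × ℝ) : ℝ := (b.1 - a.1) * (c.2 - a.2) - (b.2 - a.2) * (c.1 - a.1)

/-- product of the four orientations -/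
def F4 (a b c d : ℝ × ℝ) : ℝ := ori a b c * ori a b d * ori a c d * ori b c d

lemma ori_comm12 (a b c : ℝ × ℝ) : ori b a c = - ori a b c := by unfold ori; ring
lemma ori_comm23 (a b c : ℝ × ℝ) : ori a c b = - ori a b c := by unfold ori; ring

lemma F4_swap01 (a b c d : ℝ × ℝ) : F4 b a c d = F4 a b c d := by
  unfold F4 ori; ring
lemma F4_swap12 (a b c d : ℝ × ℝ) : F4 a c b d = F4 a b c d := by
  unfold F4 ori; ring
lemma F4_swap23 (a b c d : ℝ × ℝ) : F4 a b d c = F4 a b c d := by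
  unfold F4 ori; ring

lemma mem_hull3 (a b c d : ℝ × ℝ) :
    d ∈ convexHull ℝ ({a, b, c} : Set (ℝ × ℝ)) ↔
      ∃ α β γ : ℝ, 0 ≤ α ∧ 0 ≤ β ∧ 0 ≤ γ ∧ α + β + γ = 1 ∧
        d.1 = α * a.1 + β * b.1 + γ * c.1 ∧ d.2 = α * a.2 + β * b.2 + γ * c.2 := by
  rw [convexHull_insert (Set.insert_nonempty b {c}), convexHull_pair]
  simp only [convexJoin_singleton_left, Set.mem_iUnion, exists_prop]
  constructor
  · rintro ⟨y, ⟨s, t, hs, ht, hst, rfl⟩, ⟨u, v, hu, hv, huv, rfl⟩⟩
    refine ⟨u, v * s, v * t, hu, mul_nonneg hv hs, mul_nonneg hv ht, ?_, ?_, ?_⟩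
    · have : v * s + v * t = v := by rw [← mul_add, hst, mul_one]
      linarith
    · simp; ring
    · simp; ring
  · rintro ⟨α, β, γ, hα, hβ, hγ, hsum, h1, h2⟩
    by_cases hbc : β + γ = 0
    · have hβ0 : β = 0 := by linarith
      have hγ0 : γ = 0 := by linarith
      have hα1 : α = 1 := by linarith
      subst hβ0 hγ0 hα1
      refine ⟨b, left_mem_segment ℝ b c, ?_⟩
      have : d = a := by ext <;> simp [h1, h2]
      rw [this]; exact left_mem_segment ℝ a b
    · have hpos : 0 < β + γ := lt_of_le_of_ne (by linarith) (Ne.symm hbc)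
      refine ⟨(β / (β + γ)) • b + (γ / (β + γ)) • c, ⟨β / (β + γ), γ / (β + γ), by positivity,
        by positivity, by field_simp, rfl⟩, ⟨α, β + γ, hα, hpos.le, by linarith, ?_⟩⟩
      ext
      · simp [h1]; field_simp; ring
      · simp [h2]; field_simp; ring

/-- if `d` lies in the triangle `a b c` then `F4 ≤ 0` -/
lemma F4_nonpos_of_mem (a b c d : ℝ × ℝ) (h : d ∈ convexHull ℝ ({a, b, c} : Set (ℝ × ℝ))) :
    F4 a b c d ≤ 0 := by
  rw [mem_hull3] at h
  obtain ⟨α, β, γ, hα, hβ, hγ, hsum, h1, h2⟩ := h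
  have hα' : α = 1 - β - γ := by linarith
  have e1 : ori a b d = γ * ori a b c := by
    unfold ori; rw [h1, h2, hα']; ring
  have e2 : ori a c d = - (β * ori a b c) := by
    unfold ori; rw [h1, h2, hα']; ring
  have e3 : ori b c d = α * ori a b c := by
    unfold ori; rw [h1, h2, hα']; ring
  have : F4 a b c d = - (α * β * γ * (ori a b c) ^ 4) := by
    unfold F4; rw [e1, e2, e3]; ring
  rw [this]
  have : 0 ≤ α * β * γ * (ori a b c) ^ 4 := by positivity
  linarith

lemma mem_of_F4_neg (a b c d : ℝ × ℝ) (h : F4 a b c d < 0) :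
    d ∈ convexHull ℝ ({a, b, c} : Set (ℝ × ℝ)) ∨ c ∈ convexHull ℝ ({a, b, d} : Set (ℝ × ℝ)) ∨
    b ∈ convexHull ℝ ({a, c, d} : Set (ℝ × ℝ)) ∨ a ∈ convexHull ℝ ({b, c, d} : Set (ℝ × ℝ)) := by
  have hO : ori a b c ≠ 0 := by
    intro h0; unfold F4 at h; rw [h0] at h; simp at h
  set O := ori a b c with hOdef
  set α := ori b c d / O with hα
  set β := - ori a c d / O with hβ
  set γ := ori a b d / O with hγ
  have hsum : α + β + γ = 1 := by
    rw [hα, hβ, hγ, ← add_div, ← add_div, div_eq_one_iff_eq hO, hOdef]; unfold ori; ring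
  have h1 : d.1 = α * a.1 + β * b.1 + γ * c.1 := by
    rw [hα, hβ, hγ]; field_simp; rw [hOdef]; unfold ori; ring
  have h2 : d.2 = α * a.2 + β * b.2 + γ * c.2 := by
    rw [hα, hβ, hγ]; field_simp; rw [hOdef]; unfold ori; ring
  have hprod : 0 < α * β * γ := by
    have e : α * β * γ = - F4 a b c d / O ^ 4 := by
      rw [hα, hβ, hγ]; unfold F4; rw [← hOdef]; field_simp
    rw [e]
    have : 0 < O ^ 4 := by positivity
    exact div_pos (by linarith) this
  rw [mem_hull3, mem_hull3, mem_hull3, mem_hull3]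
  rcases lt_trichotomy α 0 with ha | ha | ha
  · -- α < 0, so β γ < 0
    have hbc : β * γ < 0 := by nlinarith
    rcases lt_or_ge β 0 with hb | hb
    · -- γ > 0 : c inside a b d
      have hc : 0 < γ := by nlinarith
      right; left
      refine ⟨-α / γ, -β / γ, 1 / γ, div_nonneg (by linarith) hc.le, div_nonneg (by linarith) hc.le,
        by positivity, ?_, ?_, ?_⟩
      · field_simp; linarith
      · rw [h1]; field_simp; ring
      · rw [h2]; field_simp; ring
    · have hb' : 0 < β := lt_of_le_of_ne hb (by rintro h0; rw [← h0] at hbc; simp at hbc)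
      have hc : γ < 0 := by nlinarith
      right; right; left
      refine ⟨-α / β, -γ / β, 1 / β, div_nonneg (by linarith) hb'.le, div_nonneg (by linarith) hb'.le,
        by positivity, ?_, ?_, ?_⟩
      · field_simp; linarith
      · rw [h1]; field_simp; ring
      · rw [h2]; field_simp; ring
  · rw [ha] at hprod; simp at hprod
  · have hbc : 0 < β * γ := by
      by_contra hcon
      push Not at hcon
      nlinarith
    rcases lt_or_ge β 0 with hb | hb
    · have hc : γ < 0 := by nlinarith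
      right; right; right
      refine ⟨-β / α, -γ / α, 1 / α, div_nonneg (by linarith) ha.le, div_nonneg (by linarith) ha.le,
        by positivity, ?_, ?_, ?_⟩
      · field_simp; linarith
      · rw [h1]; field_simp; ring
      · rw [h2]; field_simp; ring
    · have hb' : 0 < β := lt_of_le_of_ne hb (by rintro h0; rw [← h0] at hbc; simp at hbc)
      have hc : 0 < γ := by nlinarith
      left
      exact ⟨α, β, γ, ha.le, hb, hc.le, hsum, h1, h2⟩

lemma image_ne0 (x : Fin 4 → ℝ × ℝ) : x '' {j | j ≠ 0} = {x 1, x 2, x 3} := by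
  ext y; simp only [Set.mem_image, Set.mem_ofPred_eq, Set.mem_insert_iff, Set.mem_singleton_iff]
  constructor
  · rintro ⟨j, hj, rfl⟩; fin_cases j <;> simp_all
  · rintro (rfl | rfl | rfl)
    · exact ⟨1, by decide, rfl⟩
    · exact ⟨2, by decide, rfl⟩
    · exact ⟨3, by decide, rfl⟩
lemma image_ne1 (x : Fin 4 → ℝ × ℝ) : x '' {j | j ≠ 1} = {x 0, x 2, x 3} := by
  ext y; simp only [Set.mem_image, Set.mem_ofPred_eq, Set.mem_insert_iff, Set.mem_singleton_iff]
  constructor
  · rintro ⟨j, hj, rfl⟩; fin_cases j <;> simp_all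
  · rintro (rfl | rfl | rfl)
    · exact ⟨0, by decide, rfl⟩
    · exact ⟨2, by decide, rfl⟩
    · exact ⟨3, by decide, rfl⟩
lemma image_ne2 (x : Fin 4 → ℝ × ℝ) : x '' {j | j ≠ 2} = {x 0, x 1, x 3} := by
  ext y; simp only [Set.mem_image, Set.mem_ofPred_eq, Set.mem_insert_iff, Set.mem_singleton_iff]
  constructor
  · rintro ⟨j, hj, rfl⟩; fin_cases j <;> simp_all
  · rintro (rfl | rfl | rfl)
    · exact ⟨0, by decide, rfl⟩
    · exact ⟨1, by decide, rfl⟩
    · exact ⟨3, by decide, rfl⟩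
lemma image_ne3 (x : Fin 4 → ℝ × ℝ) : x '' {j | j ≠ 3} = {x 0, x 1, x 2} := by
  ext y; simp only [Set.mem_image, Set.mem_ofPred_eq, Set.mem_insert_iff, Set.mem_singleton_iff]
  constructor
  · rintro ⟨j, hj, rfl⟩; fin_cases j <;> simp_all
  · rintro (rfl | rfl | rfl)
    · exact ⟨0, by decide, rfl⟩
    · exact ⟨1, by decide, rfl⟩
    · exact ⟨2, by decide, rfl⟩

lemma exists_mem_iff (x : Fin 4 → ℝ × ℝ) (hx : F4 (x 0) (x 1) (x 2) (x 3) ≠ 0) :
    (∃ i, x i ∈ convexHull ℝ (x '' {j | j ≠ i})) ↔ F4 (x 0) (x 1) (x 2) (x 3) < 0 := by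
  constructor
  · rintro ⟨i, hi⟩
    refine lt_of_le_of_ne ?_ hx
    fin_cases i
    · change x 0 ∈ convexHull ℝ (x '' {j | j ≠ 0}) at hi
      rw [image_ne0] at hi
      have := F4_nonpos_of_mem _ _ _ _ hi
      unfold F4 ori at *; linarith
    · change x 1 ∈ convexHull ℝ (x '' {j | j ≠ 1}) at hi
      rw [image_ne1] at hi
      have := F4_nonpos_of_mem _ _ _ _ hi
      unfold F4 ori at *; linarith
    · change x 2 ∈ convexHull ℝ (x '' {j | j ≠ 2}) at hi
      rw [image_ne2] at hi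
      have := F4_nonpos_of_mem _ _ _ _ hi
      unfold F4 ori at *; linarith
    · change x 3 ∈ convexHull ℝ (x '' {j | j ≠ 3}) at hi
      rw [image_ne3] at hi
      exact F4_nonpos_of_mem _ _ _ _ hi
  · intro h
    rcases mem_of_F4_neg _ _ _ _ h with h | h | h | h
    · exact ⟨3, by rw [image_ne3]; exact h⟩
    · exact ⟨2, by rw [image_ne2]; exact h⟩
    · exact ⟨1, by rw [image_ne1]; exact h⟩
    · exact ⟨0, by rw [image_ne0]; exact h⟩

section general
variable {α : Type} [MeasurableSpace α]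

lemma iIndepFun_eval {ι : Type} [Fintype ι] (μ : Measure α) [IsProbabilityMeasure μ] :
    iIndepFun (fun (i : ι) (x : ι → α) => x i) (Measure.pi fun _ : ι => μ) :=
  iIndepFun_pi (μ := fun _ : ι => μ) (X := fun _ => id) (fun _ => aemeasurable_id)

lemma map_comp_pi {ι κ : Type} [Fintype ι] [Fintype κ] (j : κ → ι) (hj : Function.Injective j)
    (μ : Measure α) [IsProbabilityMeasure μ] :
    (Measure.pi fun _ : ι => μ).map (fun x => x ∘ j) = Measure.pi fun _ : κ => μ := by
  have h1 := (iIndepFun_eval (ι := ι) μ).precomp hj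
  have h2 := (iIndepFun_iff_map_fun_eq_pi_map
    (fun i => (measurable_pi_apply (j i)).aemeasurable)).1 h1
  have h3 : (fun x : ι → α => x ∘ j) = fun ω i => ω (j i) := rfl
  rw [h3]
  refine Eq.trans h2 ?_
  congr 1
  funext i
  exact (measurePreserving_eval (fun _ : ι => μ) (j i)).map_eq

lemma pi_withDensity {ι : Type} [Fintype ι] (μ : Measure α) [IsProbabilityMeasure μ]
    (f : α → ENNReal) (hf : Measurable f) [IsProbabilityMeasure (μ.withDensity f)] :
    Measure.pi (fun _ : ι => μ.withDensity f) =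
      (Measure.pi fun _ : ι => μ).withDensity (fun x => ∏ i, f (x i)) := by
  refine Measure.pi_eq fun s hs => ?_
  rw [withDensity_apply _ (MeasurableSet.univ_pi hs)]
  rw [← lintegral_indicator (MeasurableSet.univ_pi hs)]
  have e : (fun x : ι → α => (Set.univ.pi s).indicator (fun x => ∏ i, f (x i)) x) =
      fun x => ∏ i, (s i).indicator f (x i) := by
    funext x
    by_cases hx : x ∈ Set.univ.pi s
    · rw [Set.indicator_of_mem hx]
      refine Finset.prod_congr rfl fun i _ => ?_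
      rw [Set.indicator_of_mem (hx i (Set.mem_univ i))]
    · rw [Set.indicator_of_notMem hx]
      have : ∃ i, x i ∉ s i := by
        by_contra hcon
        push Not at hcon
        exact hx (fun i _ => hcon i)
      obtain ⟨i, hi⟩ := this
      symm
      apply Finset.prod_eq_zero (Finset.mem_univ i)
      rw [Set.indicator_of_notMem hi]
  rw [e]
  have hind : iIndepFun (fun (i : ι) (x : ι → α) => (s i).indicator f (x i))
      (Measure.pi fun _ : ι => μ) :=
    iIndepFun_pi (μ := fun _ : ι => μ) (X := fun i => (s i).indicator f)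
      (fun i => (hf.indicator (hs i)).aemeasurable)
  rw [lintegral_prod_eq_prod_lintegral_of_indepFun Finset.univ _ hind
    (fun i => (hf.indicator (hs i)).comp (measurable_pi_apply i))]
  refine Finset.prod_congr rfl fun i _ => ?_
  rw [withDensity_apply _ (hs i), ← lintegral_indicator (hs i)]
  exact (measurePreserving_eval (fun _ : ι => μ) i).lintegral_comp (hf.indicator (hs i))

lemma map_pi4 (μ : Measure α) [IsProbabilityMeasure μ] :
    ((μ.prod μ).prod (μ.prod μ)).map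
      (fun p : (α × α) × (α × α) => ![p.1.1, p.1.2, p.2.1, p.2.2]) =
      Measure.pi (fun _ : Fin 4 => μ) := by
  symm
  refine Measure.pi_eq fun s hs => ?_
  have hm : Measurable (fun p : (α × α) × (α × α) => ![p.1.1, p.1.2, p.2.1, p.2.2]) := by
    refine measurable_pi_lambda _ fun i => ?_
    fin_cases i
    · exact measurable_fst.comp measurable_fst
    · exact measurable_snd.comp measurable_fst
    · exact measurable_fst.comp measurable_snd
    · exact measurable_snd.comp measurable_snd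
  rw [Measure.map_apply hm (MeasurableSet.univ_pi hs)]
  have : (fun p : (α × α) × (α × α) => ![p.1.1, p.1.2, p.2.1, p.2.2]) ⁻¹' Set.univ.pi s =
      (s 0 ×ˢ s 1) ×ˢ (s 2 ×ˢ s 3) := by
    ext p
    simp only [Set.mem_preimage, Set.mem_pi, Set.mem_univ, true_implies, Set.mem_prod]
    rw [Fin.forall_fin_succ, Fin.forall_fin_succ, Fin.forall_fin_succ, Fin.forall_fin_succ]
    simp [and_assoc]
  rw [this, Measure.prod_prod, Measure.prod_prod, Measure.prod_prod, Fin.prod_univ_four]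
  ring

lemma measurable_tuple4 :
    Measurable (fun p : (α × α) × (α × α) => ![p.1.1, p.1.2, p.2.1, p.2.2]) := by
  refine measurable_pi_lambda _ fun i => ?_
  fin_cases i
  · exact measurable_fst.comp measurable_fst
  · exact measurable_snd.comp measurable_fst
  · exact measurable_fst.comp measurable_snd
  · exact measurable_snd.comp measurable_snd

end general

/-- two dimensional cross product -/
def cr (v z : ℝ × ℝ) : ℝ := v.1 * z.2 - v.2 * z.1

lemma ori_eq_cr (a b c : ℝ × ℝ) : ori a b c = cr (b - a) (c - a) := by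
  unfold ori cr; simp

lemma line_null (v : ℝ × ℝ) (hv : v ≠ 0) (r : ℝ) :
    (volume : Measure (ℝ × ℝ)) {z | cr v z = r} = 0 := by
  have hmeas : MeasurableSet {z : ℝ × ℝ | cr v z = r} := by
    unfold cr
    exact measurableSet_eq_fun (by fun_prop) measurable_const
  rw [Measure.volume_eq_prod, Measure.measure_prod_null hmeas]
  by_cases h1 : v.1 = 0
  · have h2 : v.2 ≠ 0 := by
      intro h2; exact hv (Prod.ext h1 h2)
    have hae : ∀ᵐ x : ℝ, x ≠ - r / v.2 := by
      have := (measure_singleton (μ := (volume : Measure ℝ)) (- r / v.2))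
      rw [ae_iff]; simp
    filter_upwards [hae] with x hx
    have : Prod.mk x ⁻¹' {z : ℝ × ℝ | cr v z = r} = ∅ := by
      ext y
      simp only [Set.mem_preimage, Set.mem_empty_iff_false, iff_false]
      intro h
      have h' : cr v (x, y) = r := h
      unfold cr at h'
      rw [h1] at h'
      apply hx
      field_simp
      simp at h'
      linarith
    rw [this]; simp
  · refine Filter.Eventually.of_forall fun x => ?_
    have : Prod.mk x ⁻¹' {z : ℝ × ℝ | cr v z = r} ⊆ {(r + v.2 * x) / v.1} := by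
      intro y h
      have h' : cr v (x, y) = r := h
      unfold cr at h'
      simp only [Set.mem_singleton_iff]
      field_simp
      simp at h'
      linarith
    exact measure_mono_null this (measure_singleton _)

section ac
variable (μ : Measure (ℝ × ℝ)) [IsProbabilityMeasure μ] (hac : μ ≪ volume)
include hac

lemma ae_cr_ne (a v : ℝ × ℝ) (hv : v ≠ 0) : ∀ᵐ z ∂μ, cr v (z - a) ≠ 0 := by
  have h := line_null v hv (cr v a)
  have h2 : ∀ᵐ z ∂(volume : Measure (ℝ × ℝ)), cr v (z - a) ≠ 0 := by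
    rw [ae_iff]
    convert h using 2
    ext z
    simp only [not_not]
    change cr v (z - a) = 0 ↔ cr v z = cr v a
    unfold cr
    simp
    constructor <;> intro h <;> linarith
  exact hac.ae_le h2

lemma ae_ori_ne (a b : ℝ × ℝ) (hab : a ≠ b) : ∀ᵐ z ∂μ, ori a b z ≠ 0 := by
  filter_upwards [ae_cr_ne μ hac a (b - a) (sub_ne_zero.2 (Ne.symm hab))] with z hz
  rwa [ori_eq_cr]

lemma ae_ne (a : ℝ × ℝ) : ∀ᵐ z ∂μ, z ≠ a := by
  have h2 : ∀ᵐ z ∂(volume : Measure (ℝ × ℝ)), z ≠ a := by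
    rw [ae_iff]
    simp
  exact hac.ae_le h2

end ac

lemma continuous_cr : Continuous (fun p : (ℝ × ℝ) × (ℝ × ℝ) => cr p.1 p.2) := by
  unfold cr; fun_prop

lemma measurable_F4 : Measurable (fun x : Fin 4 → ℝ × ℝ => F4 (x 0) (x 1) (x 2) (x 3)) := by
  unfold F4 ori; fun_prop

section ac2
variable (μ : Measure (ℝ × ℝ)) [IsProbabilityMeasure μ] (hac : μ ≪ volume)
include hac

lemma ae_prod_ne : ∀ᵐ p ∂(μ.prod μ), p.1 ≠ p.2 := by
  have hm : MeasurableSet {p : (ℝ × ℝ) × (ℝ × ℝ) | p.1 ≠ p.2} :=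
    (measurableSet_eq_fun measurable_fst measurable_snd).compl
  refine (Measure.ae_prod_iff_ae_ae hm).2 ?_
  refine Filter.Eventually.of_forall fun a => ?_
  filter_upwards [ae_ne μ hac a] with z hz
  exact Ne.symm hz

lemma ae_F4_ne2 (a b : ℝ × ℝ) (hab : a ≠ b) :
    ∀ᵐ q ∂(μ.prod μ), F4 a b q.1 q.2 ≠ 0 := by
  have hm : MeasurableSet {q : (ℝ × ℝ) × (ℝ × ℝ) | F4 a b q.1 q.2 ≠ 0} := by
    refine (measurableSet_eq_fun ?_ measurable_const).compl
    unfold F4 ori; fun_prop
  refine (Measure.ae_prod_iff_ae_ae hm).2 ?_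
  filter_upwards [ae_ori_ne μ hac a b hab, ae_ne μ hac a, ae_ne μ hac b] with c hc hc1 hc2
  filter_upwards [ae_ori_ne μ hac a b hab, ae_ori_ne μ hac a c (Ne.symm hc1),
    ae_ori_ne μ hac b c (Ne.symm hc2)] with d hd1 hd2 hd3
  exact mul_ne_zero (mul_ne_zero (mul_ne_zero hc hd1) hd2) hd3

lemma ae_F4_ne : ∀ᵐ x ∂(Measure.pi fun _ : Fin 4 => μ), F4 (x 0) (x 1) (x 2) (x 3) ≠ 0 := by
  have hms : MeasurableSet {x : Fin 4 → ℝ × ℝ | F4 (x 0) (x 1) (x 2) (x 3) ≠ 0} :=
    (measurableSet_eq_fun measurable_F4 measurable_const).compl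
  have hm : MeasurableSet {p : ((ℝ × ℝ) × (ℝ × ℝ)) × ((ℝ × ℝ) × (ℝ × ℝ)) |
      F4 p.1.1 p.1.2 p.2.1 p.2.2 ≠ 0} := by
    refine (measurableSet_eq_fun ?_ measurable_const).compl
    unfold F4 ori; fun_prop
  rw [← map_pi4 μ]
  refine (ae_map_iff measurable_tuple4.aemeasurable hms).2 ?_
  refine (Measure.ae_prod_iff_ae_ae hm).2 ?_
  filter_upwards [ae_prod_ne μ hac] with p hp
  exact ae_F4_ne2 μ hac p.1 p.2 hp

end ac2

/-- four points sampled from `μ` are in convex position: probability -/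
noncomputable def phi (μ : Measure (ℝ × ℝ)) : ℝ :=
  (Measure.pi fun _ : Fin 4 => μ).real {x | 0 < F4 (x 0) (x 1) (x 2) (x 3)}

lemma measurableSet_pos : MeasurableSet {x : Fin 4 → ℝ × ℝ | 0 < F4 (x 0) (x 1) (x 2) (x 3)} :=
  measurableSet_lt measurable_const measurable_F4

lemma F4_eq_zero_of_eq (x : Fin 4 → ℝ × ℝ) (i k : Fin 4) (hik : i ≠ k) (h : x i = x k) :
    F4 (x 0) (x 1) (x 2) (x 3) = 0 := by
  unfold F4 ori
  fin_cases i <;> fin_cases k <;> first | exact absurd rfl hik | skip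
  all_goals
    first
    | (change x 0 = x 1 at h; rw [h]; ring)
    | (change x 0 = x 2 at h; rw [h]; ring)
    | (change x 0 = x 3 at h; rw [h]; ring)
    | (change x 1 = x 0 at h; rw [h]; ring)
    | (change x 1 = x 2 at h; rw [h]; ring)
    | (change x 1 = x 3 at h; rw [h]; ring)
    | (change x 2 = x 0 at h; rw [h]; ring)
    | (change x 2 = x 1 at h; rw [h]; ring)
    | (change x 2 = x 3 at h; rw [h]; ring)
    | (change x 3 = x 0 at h; rw [h]; ring)
    | (change x 3 = x 1 at h; rw [h]; ring)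
    | (change x 3 = x 2 at h; rw [h]; ring)

lemma exists_config (μ : Measure (ℝ × ℝ)) [IsProbabilityMeasure μ] (hac : μ ≪ volume) (n : ℕ) :
    ∃ x : Fin n → ℝ × ℝ,
      (∀ j : Fin 4 → Fin n, Function.Injective j → F4 (x (j 0)) (x (j 1)) (x (j 2)) (x (j 3)) ≠ 0) ∧
      ((Finset.univ.filter fun j : Fin 4 → Fin n =>
        0 < F4 (x (j 0)) (x (j 1)) (x (j 2)) (x (j 3))).card : ℝ) ≤ (n : ℝ) ^ 4 * phi μ := by
  classical
  set P := Measure.pi fun _ : Fin n => μ with hP
  have hmp : ∀ j : Fin 4 → Fin n, Function.Injective j →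
      MeasurePreserving (fun x : Fin n → ℝ × ℝ => x ∘ j) P (Measure.pi fun _ : Fin 4 => μ) := by
    intro j hj
    exact ⟨measurable_pi_lambda _ fun i => measurable_pi_apply (j i), map_comp_pi j hj μ⟩
  have hms : ∀ j : Fin 4 → Fin n, MeasurableSet {x : Fin n → ℝ × ℝ |
      0 < F4 (x (j 0)) (x (j 1)) (x (j 2)) (x (j 3))} := by
    intro j
    refine measurableSet_lt measurable_const ?_
    unfold F4 ori; fun_prop
  have hae : ∀ᵐ x ∂P, ∀ j : Fin 4 → Fin n, Function.Injective j →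
      F4 (x (j 0)) (x (j 1)) (x (j 2)) (x (j 3)) ≠ 0 := by
    rw [ae_all_iff]
    intro j
    by_cases hj : Function.Injective j
    · have h1 := (hmp j hj).quasiMeasurePreserving.ae (ae_F4_ne μ hac)
      filter_upwards [h1] with x hx _
      exact hx
    · exact Filter.Eventually.of_forall fun x h => absurd h hj
  have hprob : ∀ j : Fin 4 → Fin n, P.real {x | 0 < F4 (x (j 0)) (x (j 1)) (x (j 2)) (x (j 3))}
      ≤ phi μ := by
    intro j
    by_cases hj : Function.Injective j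
    · have h1 := (hmp j hj).measure_preimage measurableSet_pos.nullMeasurableSet
      have : P {x | 0 < F4 (x (j 0)) (x (j 1)) (x (j 2)) (x (j 3))} =
        (Measure.pi fun _ : Fin 4 => μ) {x | 0 < F4 (x 0) (x 1) (x 2) (x 3)} := h1
      unfold phi Measure.real
      rw [this]
    · have : {x : Fin n → ℝ × ℝ | 0 < F4 (x (j 0)) (x (j 1)) (x (j 2)) (x (j 3))} = ∅ := by
        ext x
        simp only [Set.mem_empty_iff_false, iff_false]
        intro hx
        have hx' : 0 < F4 (x (j 0)) (x (j 1)) (x (j 2)) (x (j 3)) := hx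
        unfold Function.Injective at hj
        push Not at hj
        obtain ⟨a, b, hab, hne⟩ := hj
        have := F4_eq_zero_of_eq (x ∘ j) a b hne (by simp [hab])
        simp only [Function.comp] at this
        linarith
      rw [this]
      simp only [measureReal_empty]
      exact measureReal_nonneg
  set f : (Fin n → ℝ × ℝ) → ℝ := fun x => ∑ j : Fin 4 → Fin n,
    ({x : Fin n → ℝ × ℝ | 0 < F4 (x (j 0)) (x (j 1)) (x (j 2)) (x (j 3))}).indicator
      (fun _ => (1 : ℝ)) x with hf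
  have hint : Integrable f P := by
    refine integrable_finsetSum _ fun j _ => ?_
    exact (integrable_const (1:ℝ)).indicator (hms j)
  have hval : ∫ x, f x ∂P ≤ (n : ℝ) ^ 4 * phi μ := by
    rw [hf, integral_finsetSum _ fun j _ => (integrable_const (1:ℝ)).indicator (hms j)]
    calc ∑ j : Fin 4 → Fin n, ∫ x, ({x : Fin n → ℝ × ℝ | 0 < F4 (x (j 0)) (x (j 1)) (x (j 2))
            (x (j 3))}).indicator (fun _ => (1 : ℝ)) x ∂P
        = ∑ j : Fin 4 → Fin n, P.real {x | 0 < F4 (x (j 0)) (x (j 1)) (x (j 2)) (x (j 3))} := by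
          refine Finset.sum_congr rfl fun j _ => ?_
          rw [integral_indicator (hms j)]
          simp
      _ ≤ ∑ j : Fin 4 → Fin n, phi μ := Finset.sum_le_sum fun j _ => hprob j
      _ = (n : ℝ) ^ 4 * phi μ := by
          simp
  have hnull : P {x | ¬ ∀ j : Fin 4 → Fin n, Function.Injective j →
      F4 (x (j 0)) (x (j 1)) (x (j 2)) (x (j 3)) ≠ 0} = 0 := by
    rw [← ae_iff]; exact hae
  obtain ⟨x, hxN, hx⟩ := exists_notMem_null_le_integral hint hnull
  refine ⟨x, ?_, ?_⟩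
  · by_contra hcon
    exact hxN hcon
  · refine le_trans ?_ (le_trans hx hval)
    rw [hf]
    rw [Finset.card_filter]
    push_cast
    refine Finset.sum_le_sum fun j _ => ?_
    by_cases h : 0 < F4 (x (j 0)) (x (j 1)) (x (j 2)) (x (j 3))
    · rw [if_pos h, Set.indicator_of_mem (show x ∈ {x : Fin n → ℝ × ℝ |
        0 < F4 (x (j 0)) (x (j 1)) (x (j 2)) (x (j 3))} from h)]
    · rw [if_neg h]
      exact Set.indicator_nonneg (fun _ _ => zero_le_one) x

lemma continuous_F4 : Continuous (fun x : Fin 4 → ℝ × ℝ => F4 (x 0) (x 1) (x 2) (x 3)) := by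
  unfold F4 ori; fun_prop

/-- Points of a configuration in general position are distinct. -/
lemma config_injective (n : ℕ) (hn : 4 ≤ n) (x : Fin n → ℝ × ℝ)
    (hx : ∀ j : Fin 4 → Fin n, Function.Injective j →
      F4 (x (j 0)) (x (j 1)) (x (j 2)) (x (j 3)) ≠ 0) : Function.Injective x := by
  classical
  intro a b hab
  by_contra hne
  obtain ⟨c, hc⟩ : ∃ c, c ∉ ({a, b} : Finset (Fin n)) := by
    by_contra hcon
    push Not at hcon
    have h1 : (Finset.univ : Finset (Fin n)) ⊆ {a, b} := fun c _ => hcon c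
    have h2 := Finset.card_le_card h1
    have h3 : ({a, b} : Finset (Fin n)).card ≤ 2 := Finset.card_le_two
    simp at h2; omega
  obtain ⟨d, hd⟩ : ∃ d, d ∉ ({a, b, c} : Finset (Fin n)) := by
    by_contra hcon
    push Not at hcon
    have h1 : (Finset.univ : Finset (Fin n)) ⊆ {a, b, c} := fun c _ => hcon c
    have h2 := Finset.card_le_card h1
    have h3 : ({a, b, c} : Finset (Fin n)).card ≤ 3 := Finset.card_le_three
    simp at h2; omega
  simp only [Finset.mem_insert, Finset.mem_singleton, not_or] at hc hd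
  have hinj : Function.Injective ![a, b, c, d] := by
    intro i k hik
    fin_cases i <;> fin_cases k <;> first | rfl | skip
    all_goals simp at hik
    all_goals first | exact absurd hik hne | exact absurd hik.symm hne | exact absurd hik hc.1 | exact absurd hik.symm hc.1 | exact absurd hik hc.2 | exact absurd hik.symm hc.2 | exact absurd hik hd.1 | exact absurd hik.symm hd.1 | exact absurd hik hd.2.1 | exact absurd hik.symm hd.2.1 | exact absurd hik hd.2.2 | exact absurd hik.symm hd.2.2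
  apply hx _ hinj
  simp only [Matrix.cons_val_zero, Matrix.cons_val_one, Matrix.cons_val]
  rw [hab]
  unfold F4 ori; ring

lemma exists_radius (n : ℕ) (x : Fin n → ℝ × ℝ) (hxi : Function.Injective x)
    (hx : ∀ j : Fin 4 → Fin n, Function.Injective j →
      F4 (x (j 0)) (x (j 1)) (x (j 2)) (x (j 3)) ≠ 0) :
    ∃ ρ : ℝ, 0 < ρ ∧ (∀ i k, i ≠ k → Disjoint (Metric.ball (x i) ρ) (Metric.ball (x k) ρ)) ∧
      ∀ j : Fin 4 → Fin n, F4 (x (j 0)) (x (j 1)) (x (j 2)) (x (j 3)) < 0 →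
        ∀ y : Fin 4 → ℝ × ℝ, (∀ i, y i ∈ Metric.ball (x (j i)) ρ) →
          F4 (y 0) (y 1) (y 2) (y 3) < 0 := by
  have h1 : ∀ᶠ ρ in nhdsWithin (0:ℝ) (Set.Ioi 0), ∀ j : Fin 4 → Fin n,
      F4 (x (j 0)) (x (j 1)) (x (j 2)) (x (j 3)) < 0 →
        ∀ y : Fin 4 → ℝ × ℝ, (∀ i, y i ∈ Metric.ball (x (j i)) ρ) →
          F4 (y 0) (y 1) (y 2) (y 3) < 0 := by
    rw [Filter.eventually_all]
    intro j
    by_cases hj : F4 (x (j 0)) (x (j 1)) (x (j 2)) (x (j 3)) < 0
    · have hopen : IsOpen {y : Fin 4 → ℝ × ℝ | F4 (y 0) (y 1) (y 2) (y 3) < 0} :=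
        isOpen_lt continuous_F4 continuous_const
      obtain ⟨ε, hε, hball⟩ := Metric.isOpen_iff.1 hopen (x ∘ j) hj
      have : Set.Ioo (0:ℝ) ε ∈ nhdsWithin (0:ℝ) (Set.Ioi 0) := Ioo_mem_nhdsGT hε
      filter_upwards [this] with ρ hρ _ y hy
      apply hball
      rw [Metric.mem_ball, dist_pi_lt_iff hε]
      intro i
      exact lt_trans (Metric.mem_ball.1 (hy i)) hρ.2
    · exact Filter.Eventually.of_forall fun ρ h => absurd h hj
  have h2 : ∀ᶠ ρ in nhdsWithin (0:ℝ) (Set.Ioi 0), ∀ i k, i ≠ k →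
      Disjoint (Metric.ball (x i) ρ) (Metric.ball (x k) ρ) := by
    rw [Filter.eventually_all]
    intro i
    rw [Filter.eventually_all]
    intro k
    by_cases hik : i = k
    · exact Filter.Eventually.of_forall fun ρ h => absurd hik h
    · have hd : 0 < dist (x i) (x k) / 2 := by
        have := dist_pos.2 (fun h => hik (hxi h)); linarith
      have : Set.Ioo (0:ℝ) (dist (x i) (x k) / 2) ∈ nhdsWithin (0:ℝ) (Set.Ioi 0) :=
        Ioo_mem_nhdsGT hd
      filter_upwards [this] with ρ hρ _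
      apply Metric.ball_disjoint_ball
      linarith [hρ.2]
  have h3 : ∀ᶠ ρ in nhdsWithin (0:ℝ) (Set.Ioi 0), (0:ℝ) < ρ := self_mem_nhdsWithin
  obtain ⟨ρ, hρ⟩ := (h1.and (h2.and h3)).exists
  exact ⟨ρ, hρ.2.2, hρ.2.1, hρ.1⟩

/-- admissible sets -/
def Admissible (D : Set (ℝ × ℝ)) : Prop :=
  NullMeasurableSet D volume ∧ 0 < volume D ∧ volume D < ⊤

lemma disc_bound (n : ℕ) (hn : 4 ≤ n) (x : Fin n → ℝ × ℝ)
    (hx : ∀ j : Fin 4 → Fin n, Function.Injective j →
      F4 (x (j 0)) (x (j 1)) (x (j 2)) (x (j 3)) ≠ 0) :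
    ∃ D : Set (ℝ × ℝ), Admissible D ∧ phi (cond volume D) ≤
      (((Finset.univ.filter fun j : Fin 4 → Fin n =>
        ¬ (F4 (x (j 0)) (x (j 1)) (x (j 2)) (x (j 3)) < 0)).card : ℝ)) / (n : ℝ) ^ 4 := by
  classical
  have hxi := config_injective n hn x hx
  obtain ⟨ρ, hρ, hdisj, hneg⟩ := exists_radius n x hxi hx
  set B : Fin n → Set (ℝ × ℝ) := fun i => Metric.ball (x i) ρ with hB
  set D := ⋃ i, B i with hD
  have hBm : ∀ i, MeasurableSet (B i) := fun i => Metric.isOpen_ball.measurableSet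
  have hDm : MeasurableSet D := MeasurableSet.iUnion hBm
  set V := volume (Metric.ball (0 : ℝ × ℝ) ρ) with hV
  have hBv : ∀ i, volume (B i) = V := by
    intro i
    rw [hB, hV]
    exact Measure.addHaar_ball_center volume (x i) ρ
  have hVpos : 0 < V := Metric.measure_ball_pos volume 0 hρ
  have hVtop : V ≠ ⊤ := measure_ball_lt_top.ne
  have hDv : volume D = n * V := by
    rw [hD, measure_iUnion (fun i k hik => hdisj i k hik) hBm, tsum_fintype,
      Finset.sum_congr rfl fun i _ => hBv i, Finset.sum_const, Finset.card_univ, Fintype.card_fin,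
      nsmul_eq_mul]
  have hn0 : (n : ENNReal) ≠ 0 := by
    have : n ≠ 0 := by omega
    exact_mod_cast this
  have hnt : (n : ENNReal) ≠ ⊤ := ENNReal.natCast_ne_top n
  have hDpos : volume D ≠ 0 := by
    rw [hDv]; exact mul_ne_zero hn0 hVpos.ne'
  have hDtop : volume D ≠ ⊤ := by
    rw [hDv]; exact ENNReal.mul_ne_top hnt hVtop
  set ν := cond volume D with hν
  have hνp : IsProbabilityMeasure ν := cond_isProbabilityMeasure_of_finite hDpos hDtop
  have hνB : ∀ i, ν (B i) = (n : ENNReal)⁻¹ := by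
    intro i
    rw [hν, cond_apply hDm, Set.inter_eq_self_of_subset_right (Set.subset_iUnion B i), hBv, hDv]
    rw [ENNReal.mul_inv (Or.inl hn0) (Or.inl hnt), mul_assoc, ENNReal.inv_mul_cancel hVpos.ne' hVtop,
      mul_one]
  refine ⟨D, ⟨hDm.nullMeasurableSet, pos_iff_ne_zero.2 hDpos, lt_top_iff_ne_top.2 hDtop⟩, ?_⟩
  set Q := Measure.pi fun _ : Fin 4 => ν with hQ
  set T := {y : Fin 4 → ℝ × ℝ | 0 < F4 (y 0) (y 1) (y 2) (y 3)} with hT
  set G := (Finset.univ.filter fun j : Fin 4 → Fin n =>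
        ¬ (F4 (x (j 0)) (x (j 1)) (x (j 2)) (x (j 3)) < 0)) with hG
  have hae : ∀ᵐ y ∂Q, ∀ i, y i ∈ D := by
    rw [ae_all_iff]
    intro i
    exact (measurePreserving_eval (fun _ : Fin 4 => ν) i).quasiMeasurePreserving.ae
      (ae_cond_mem hDm)
  have hle : Q T ≤ ∑ j ∈ G, Q (Set.univ.pi fun i => B (j i)) := by
    have h1 : T ≤ᵐ[Q] (⋃ j ∈ G, Set.univ.pi fun i => B (j i)) := by
      filter_upwards [hae] with y hy hyT
      have hch : ∀ i, ∃ k, y i ∈ B k := fun i => Set.mem_iUnion.1 (hy i)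
      choose j hj using hch
      refine Set.mem_iUnion₂.2 ⟨j, ?_, fun i _ => hj i⟩
      rw [hG, Finset.mem_filter]
      refine ⟨Finset.mem_univ _, fun hlt => ?_⟩
      have := hneg j hlt y hj
      have h2 : 0 < F4 (y 0) (y 1) (y 2) (y 3) := hyT
      linarith
    exact le_trans (measure_mono_ae h1) (measure_biUnion_finset_le _ _)
  have hpi : ∀ j : Fin 4 → Fin n, Q (Set.univ.pi fun i => B (j i)) = ((n : ENNReal)⁻¹) ^ 4 := by
    intro j
    rw [hQ, Measure.pi_pi]
    simp [hνB]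
  have hle2 : Q T ≤ (G.card : ENNReal) * ((n : ENNReal)⁻¹) ^ 4 := by
    refine le_trans hle ?_
    rw [Finset.sum_congr rfl fun j _ => hpi j]
    simp
  have : phi ν = (Q T).toReal := rfl
  rw [this]
  have htop : (G.card : ENNReal) * ((n : ENNReal)⁻¹) ^ 4 ≠ ⊤ := by
    refine ENNReal.mul_ne_top (ENNReal.natCast_ne_top _) ?_
    exact ENNReal.pow_ne_top (ENNReal.inv_ne_top.2 hn0)
  refine le_trans (ENNReal.toReal_mono htop hle2) ?_
  rw [ENNReal.toReal_mul, ENNReal.toReal_pow, ENNReal.toReal_inv]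
  simp only [ENNReal.toReal_natCast]
  rw [inv_pow]
  exact le_of_eq (div_eq_mul_inv _ _).symm

/-- sampling lemma -/
lemma sampling (μ : Measure (ℝ × ℝ)) [IsProbabilityMeasure μ] (hac : μ ≪ volume) (ε : ℝ)
    (hε : 0 < ε) : ∃ D : Set (ℝ × ℝ), Admissible D ∧ phi (cond volume D) ≤ phi μ + ε := by
  classical
  obtain ⟨n, hn4, hn⟩ : ∃ n : ℕ, 4 ≤ n ∧ 12 / (n : ℝ) < ε := by
    obtain ⟨m, hm⟩ := exists_nat_gt (12 / ε)
    refine ⟨max m 4, le_max_right _ _, ?_⟩
    have h1 : (0:ℝ) < (max m 4 : ℕ) := by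
      have : 4 ≤ max m 4 := le_max_right _ _
      exact_mod_cast (by omega : 0 < max m 4)
    rw [div_lt_iff₀ h1]
    rw [div_lt_iff₀ hε] at hm
    have h2 : (m : ℝ) ≤ (max m 4 : ℕ) := by exact_mod_cast le_max_left m 4
    nlinarith
  obtain ⟨x, hx, hcount⟩ := exists_config μ hac n
  obtain ⟨D, hD, hphi⟩ := disc_bound n hn4 x hx
  refine ⟨D, hD, le_trans hphi ?_⟩
  have hnpos : (0:ℝ) < n := by exact_mod_cast (by omega : 0 < n)
  -- the set of maps with F4 ≥ 0 is contained in (F4 > 0) ∪ (non injective)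
  have hsub : (Finset.univ.filter fun j : Fin 4 → Fin n =>
        ¬ (F4 (x (j 0)) (x (j 1)) (x (j 2)) (x (j 3)) < 0)) ⊆
      (Finset.univ.filter fun j : Fin 4 → Fin n =>
        0 < F4 (x (j 0)) (x (j 1)) (x (j 2)) (x (j 3))) ∪
      (Finset.univ.filter fun j : Fin 4 → Fin n => ¬ Function.Injective j) := by
    intro j hj
    rw [Finset.mem_filter] at hj
    rw [Finset.mem_union, Finset.mem_filter, Finset.mem_filter]
    by_cases hinj : Function.Injective j
    · left
      exact ⟨Finset.mem_univ _, lt_of_le_of_ne (not_lt.1 hj.2) (Ne.symm (hx j hinj))⟩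
    · right; exact ⟨Finset.mem_univ _, hinj⟩
  have hcard1 := le_trans (Finset.card_le_card hsub) (Finset.card_union_le _ _)
  have hninj : ((Finset.univ.filter fun j : Fin 4 → Fin n => ¬ Function.Injective j).card : ℝ) ≤
      12 * (n : ℝ) ^ 3 := by
    have h1 : (Finset.univ.filter fun j : Fin 4 → Fin n => Function.Injective j).card =
        n.descFactorial 4 := by
      have h2 : (Finset.univ.filter fun j : Fin 4 → Fin n => Function.Injective j).card =
          Fintype.card {j : Fin 4 → Fin n // Function.Injective j} := by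
        rw [Fintype.card_subtype]
      rw [h2, Fintype.card_congr (Equiv.subtypeInjectiveEquivEmbedding (Fin 4) (Fin n)),
        Fintype.card_embedding_eq]
      simp
    have h3 := Finset.card_filter_add_card_filter_not
      (s := (Finset.univ : Finset (Fin 4 → Fin n))) (fun j => Function.Injective j)
    rw [h1] at h3
    have h4 : (Finset.univ : Finset (Fin 4 → Fin n)).card = n ^ 4 := by simp
    rw [h4] at h3
    have h5 := Nat.pow_sub_le_descFactorial n 4
    have h6 : ((n + 1 - 4 : ℕ) : ℝ) = (n : ℝ) - 3 := by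
      rw [Nat.cast_sub (by omega)]; push_cast; ring
    have h7 : ((n : ℝ) - 3) ^ 4 ≤ (n.descFactorial 4 : ℝ) := by
      rw [← h6]; exact_mod_cast h5
    have h8 : (n.descFactorial 4 : ℝ) +
      ((Finset.univ.filter fun j : Fin 4 → Fin n => ¬ Function.Injective j).card : ℝ) =
        (n : ℝ) ^ 4 := by exact_mod_cast h3
    have hn4' : (4:ℝ) ≤ n := by exact_mod_cast hn4
    have h9 : (n : ℝ) ^ 4 - 12 * (n : ℝ) ^ 3 ≤ ((n : ℝ) - 3) ^ 4 := by nlinarith [sq_nonneg ((n:ℝ)), sq_nonneg ((n:ℝ) - 3)]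
    linarith
  have hcard2 : ((Finset.univ.filter fun j : Fin 4 → Fin n =>
        ¬ (F4 (x (j 0)) (x (j 1)) (x (j 2)) (x (j 3)) < 0)).card : ℝ) ≤
      (n : ℝ) ^ 4 * phi μ + 12 * (n : ℝ) ^ 3 := by
    have : ((Finset.univ.filter fun j : Fin 4 → Fin n =>
        ¬ (F4 (x (j 0)) (x (j 1)) (x (j 2)) (x (j 3)) < 0)).card : ℝ) ≤
        ((Finset.univ.filter fun j : Fin 4 → Fin n =>
        0 < F4 (x (j 0)) (x (j 1)) (x (j 2)) (x (j 3))).card : ℝ) +
      ((Finset.univ.filter fun j : Fin 4 → Fin n => ¬ Function.Injective j).card : ℝ) := by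
      exact_mod_cast hcard1
    linarith
  rw [div_le_iff₀ (by positivity)]
  have h10 : 12 < ε * n := by rwa [div_lt_iff₀ hnpos] at hn
  have h11 : 12 * (n : ℝ) ^ 3 ≤ ε * (n : ℝ) ^ 4 := by
    have : (0:ℝ) < (n:ℝ) ^ 3 := by positivity
    nlinarith
  nlinarith

/-- two-point kernel -/
noncomputable def k2 (μ : Measure (ℝ × ℝ)) (a b : ℝ × ℝ) : ℝ :=
  (μ.prod μ).real {q | 0 < F4 a b q.1 q.2}

lemma k2_nonneg (μ : Measure (ℝ × ℝ)) (a b : ℝ × ℝ) : 0 ≤ k2 μ a b := measureReal_nonneg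

lemma k2_le_one (μ : Measure (ℝ × ℝ)) [IsProbabilityMeasure μ] (a b : ℝ × ℝ) : k2 μ a b ≤ 1 :=
  measureReal_le_one

lemma measurableSet_big : MeasurableSet {p : ((ℝ × ℝ) × (ℝ × ℝ)) × ((ℝ × ℝ) × (ℝ × ℝ)) |
    0 < F4 p.1.1 p.1.2 p.2.1 p.2.2} := by
  refine measurableSet_lt measurable_const ?_
  unfold F4 ori; fun_prop

lemma measurable_k2 (μ : Measure (ℝ × ℝ)) [IsProbabilityMeasure μ] :
    Measurable (fun p : (ℝ × ℝ) × (ℝ × ℝ) => k2 μ p.1 p.2) := by
  have := (measurable_measure_prodMk_left (ν := μ.prod μ) measurableSet_big).ennreal_toReal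
  exact this

/-- all probability measures a.c. w.r.t. volume have `phi` at least `c` when all
    admissible sets do -/
lemma min_ac (c : ℝ) (hmin : ∀ D, Admissible D → c ≤ phi (cond volume D))
    (μ : Measure (ℝ × ℝ)) [IsProbabilityMeasure μ] (hac : μ ≪ volume) : c ≤ phi μ := by
  refine le_of_forall_pos_le_add fun ε hε => ?_
  obtain ⟨D, hD, h⟩ := sampling μ hac ε hε
  exact le_trans (hmin D hD) h

section var
variable (μ : Measure (ℝ × ℝ)) [IsProbabilityMeasure μ]

lemma integrable_of_bdd {X : Type} [MeasurableSpace X] (P : Measure X) [IsFiniteMeasure P]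
    (f : X → ℝ) (hf : Measurable f) (C : ℝ) (hC : ∀ x, |f x| ≤ C) : Integrable f P :=
  Integrable.of_bound hf.aestronglyMeasurable C (Filter.Eventually.of_forall fun x => by
    simpa using hC x)

lemma phi_withDensity (φ : ℝ × ℝ → ℝ) (hφ : Measurable φ) (hb : ∀ x, |φ x| ≤ 1)
    (hint : ∫ x, φ x ∂μ = 0) (t : ℝ) (ht : |t| ≤ 1) :
    IsProbabilityMeasure (μ.withDensity fun x => ENNReal.ofReal (1 + t * φ x)) ∧
    phi (μ.withDensity fun x => ENNReal.ofReal (1 + t * φ x)) =
      ∫ x in {x : Fin 4 → ℝ × ℝ | 0 < F4 (x 0) (x 1) (x 2) (x 3)},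
        ∏ i, (1 + t * φ (x i)) ∂(Measure.pi fun _ : Fin 4 => μ) := by
  have hnn : ∀ x, 0 ≤ 1 + t * φ x := by
    intro x
    have h1 : |t * φ x| ≤ 1 := by
      rw [abs_mul]; exact mul_le_one₀ ht (abs_nonneg _) (hb x)
    have := (abs_le.1 h1).1
    linarith
  have hmeas : Measurable (fun x => 1 + t * φ x) := by fun_prop
  have hintg : Integrable (fun x => 1 + t * φ x) μ := by
    refine integrable_of_bdd μ _ hmeas 2 fun x => ?_
    have h1 : |t * φ x| ≤ 1 := by
      rw [abs_mul]; exact mul_le_one₀ ht (abs_nonneg _) (hb x)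
    have := abs_le.1 h1
    rw [abs_le]; constructor <;> linarith
  have hprob : IsProbabilityMeasure (μ.withDensity fun x => ENNReal.ofReal (1 + t * φ x)) := by
    constructor
    rw [withDensity_apply _ MeasurableSet.univ, Measure.restrict_univ,
      ← ofReal_integral_eq_lintegral_ofReal hintg (Filter.Eventually.of_forall hnn)]
    have hφi : Integrable φ μ := integrable_of_bdd μ φ hφ 1 hb
    rw [integral_add (integrable_const _) (hφi.const_mul t), integral_const_mul, hint]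
    simp
  refine ⟨hprob, ?_⟩
  unfold phi Measure.real
  rw [pi_withDensity μ _ hmeas.ennreal_ofReal, withDensity_apply _ measurableSet_pos]
  rw [integral_eq_lintegral_of_nonneg_ae]
  · congr 1
    refine lintegral_congr fun x => ?_
    rw [ENNReal.ofReal_prod_of_nonneg fun i _ => hnn (x i)]
  · exact Filter.Eventually.of_forall fun x => Finset.prod_nonneg fun i _ => hnn (x i)
  · refine Measurable.aestronglyMeasurable ?_
    exact Finset.measurable_fun_prod _ fun i _ => hmeas.comp (measurable_pi_apply i)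

/-- second elementary symmetric function -/
def e2 (φ : ℝ × ℝ → ℝ) (x : Fin 4 → ℝ × ℝ) : ℝ :=
  φ (x 0) * φ (x 1) + φ (x 0) * φ (x 2) + φ (x 0) * φ (x 3) + φ (x 1) * φ (x 2) +
    φ (x 1) * φ (x 3) + φ (x 2) * φ (x 3)

lemma e2_nonneg (hac : μ ≪ volume) (hmin : ∀ D, Admissible D → phi μ ≤ phi (cond volume D))
    (φ : ℝ × ℝ → ℝ) (hφ : Measurable φ) (hb : ∀ x, |φ x| ≤ 1)
    (hint : ∫ x, φ x ∂μ = 0) :
    0 ≤ ∫ x in {x : Fin 4 → ℝ × ℝ | 0 < F4 (x 0) (x 1) (x 2) (x 3)},
        e2 φ x ∂(Measure.pi fun _ : Fin 4 => μ) := by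
  set T := {x : Fin 4 → ℝ × ℝ | 0 < F4 (x 0) (x 1) (x 2) (x 3)} with hT
  set Q := Measure.pi fun _ : Fin 4 => μ with hQ
  have hlb : ∀ t : ℝ, |t| ≤ 1 → phi μ ≤ ∫ x in T, ∏ i, (1 + t * φ (x i)) ∂Q := by
    intro t ht
    obtain ⟨h1, h2⟩ := phi_withDensity μ φ hφ hb hint t ht
    rw [← h2]
    exact min_ac (phi μ) hmin _ ((withDensity_absolutelyContinuous _ _).trans hac)
  have hm4 : ∀ i : Fin 4, Measurable (fun x : Fin 4 → ℝ × ℝ => φ (x i)) :=
    fun i => hφ.comp (measurable_pi_apply i)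
  have hme2 : Measurable (e2 φ) := by
    unfold e2
    have := hm4 0
    have := hm4 1
    have := hm4 2
    have := hm4 3
    fun_prop
  have hbp : ∀ a b : ℝ × ℝ, |φ a * φ b| ≤ 1 := by
    intro a b; rw [abs_mul]; exact mul_le_one₀ (hb a) (abs_nonneg _) (hb b)
  have hbe2 : ∀ x, |e2 φ x| ≤ 6 := by
    intro x
    unfold e2
    have h1 := abs_le.1 (hbp (x 0) (x 1))
    have h2 := abs_le.1 (hbp (x 0) (x 2))
    have h3 := abs_le.1 (hbp (x 0) (x 3))
    have h4 := abs_le.1 (hbp (x 1) (x 2))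
    have h5 := abs_le.1 (hbp (x 1) (x 3))
    have h6 := abs_le.1 (hbp (x 2) (x 3))
    rw [abs_le]; constructor <;> linarith
  have hie2 : Integrable (e2 φ) (Q.restrict T) := integrable_of_bdd _ _ hme2 6 hbe2
  have hme4 : Measurable (fun x : Fin 4 → ℝ × ℝ => φ (x 0) * φ (x 1) * φ (x 2) * φ (x 3)) := by
    have := hm4 0
    have := hm4 1
    have := hm4 2
    have := hm4 3
    fun_prop
  have hbe4 : ∀ x : Fin 4 → ℝ × ℝ, |φ (x 0) * φ (x 1) * φ (x 2) * φ (x 3)| ≤ 1 := by
    intro x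
    rw [mul_assoc, abs_mul]
    exact mul_le_one₀ (hbp _ _) (abs_nonneg _) (hbp _ _)
  have hie4 : Integrable (fun x : Fin 4 → ℝ × ℝ => φ (x 0) * φ (x 1) * φ (x 2) * φ (x 3))
    (Q.restrict T) := integrable_of_bdd _ _ hme4 1 hbe4
  have hprodint : ∀ t : ℝ, |t| ≤ 1 → Integrable (fun x : Fin 4 → ℝ × ℝ => ∏ i, (1 + t * φ (x i)))
      (Q.restrict T) := by
    intro t ht
    refine integrable_of_bdd _ _ ?_ 16 ?_
    · exact Finset.measurable_fun_prod _ fun i _ => by have := hm4 i; fun_prop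
    · intro x
      rw [Finset.abs_prod]
      have h16 : (16:ℝ) = ∏ i : Fin 4, (2:ℝ) := by simp; norm_num
      rw [h16]
      refine Finset.prod_le_prod (fun i _ => abs_nonneg _) fun i _ => ?_
      have h1 : |t * φ (x i)| ≤ 1 := by
        rw [abs_mul]; exact mul_le_one₀ ht (abs_nonneg _) (hb _)
      have := abs_le.1 h1
      rw [abs_le]; constructor <;> linarith
  have hphi : phi μ = ∫ x in T, (1:ℝ) ∂Q := by
    unfold phi; simp [hT, hQ]
  have hkey : ∀ t : ℝ, 0 < t → t ≤ 1 → -(t ^ 2) ≤ ∫ x in T, e2 φ x ∂Q := by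
    intro t ht0 ht1
    have ha : |t| ≤ 1 := by rw [abs_of_pos ht0]; exact ht1
    have ha' : |-t| ≤ 1 := by rw [abs_neg]; exact ha
    have h1 := hlb t ha
    have h2 := hlb (-t) ha'
    have h3 : (∫ x in T, ∏ i, (1 + t * φ (x i)) ∂Q) + ∫ x in T, ∏ i, (1 + (-t) * φ (x i)) ∂Q
        = 2 * (∫ x in T, (1:ℝ) ∂Q) + 2 * t ^ 2 * (∫ x in T, e2 φ x ∂Q) +
          2 * t ^ 4 * (∫ x in T, φ (x 0) * φ (x 1) * φ (x 2) * φ (x 3) ∂Q) := by
      have hI : Integrable (fun x : Fin 4 → ℝ × ℝ => 2 * (1:ℝ) + 2 * t ^ 2 * e2 φ x)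
          (Q.restrict T) := ((integrable_const (1:ℝ)).const_mul 2).add (hie2.const_mul _)
      rw [← integral_add (hprodint t ha) (hprodint (-t) ha'), ← integral_const_mul,
        ← integral_const_mul, ← integral_const_mul,
        ← integral_add ((integrable_const _).const_mul _) (hie2.const_mul _),
        ← integral_add hI (hie4.const_mul _)]
      refine integral_congr_ae (Filter.Eventually.of_forall fun x => ?_)
      simp only [Fin.prod_univ_four, e2]
      ring
    have h4 : ∫ x in T, φ (x 0) * φ (x 1) * φ (x 2) * φ (x 3) ∂Q ≤ 1 := by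
      have h5 : ∫ x in T, φ (x 0) * φ (x 1) * φ (x 2) * φ (x 3) ∂Q ≤ ∫ x in T, (1:ℝ) ∂Q :=
        integral_mono hie4 (integrable_const _) fun x => (abs_le.1 (hbe4 x)).2
      refine le_trans h5 ?_
      rw [← hphi]
      exact measureReal_le_one
    rw [← hphi] at h3
    have ht2 : 0 < t ^ 2 := by positivity
    have h6 : 0 ≤ 2 * t ^ 2 * (∫ x in T, e2 φ x ∂Q) + 2 * t ^ 4 *
      (∫ x in T, φ (x 0) * φ (x 1) * φ (x 2) * φ (x 3) ∂Q) := by linarith
    have h7 : 0 ≤ (2 * t ^ 2) * ((∫ x in T, e2 φ x ∂Q) + t ^ 2 *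
      (∫ x in T, φ (x 0) * φ (x 1) * φ (x 2) * φ (x 3) ∂Q)) := by nlinarith
    have h8 : 0 ≤ (∫ x in T, e2 φ x ∂Q) + t ^ 2 *
      (∫ x in T, φ (x 0) * φ (x 1) * φ (x 2) * φ (x 3) ∂Q) :=
      nonneg_of_mul_nonneg_right h7 (by positivity)
    nlinarith
  by_contra hcon
  push Not at hcon
  set c := ∫ x in T, e2 φ x ∂Q with hc
  have h9 := hkey (min 1 (-c / 2)) (lt_min one_pos (by linarith)) (min_le_left _ _)
  have h10 : min 1 (-c / 2) ^ 2 ≤ 1 * (-c/2) := by
    rw [pow_two]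
    have hp : 0 < min 1 (-c / 2) := lt_min one_pos (by linarith)
    exact mul_le_mul (min_le_left _ _) (min_le_right _ _) hp.le zero_le_one
  linarith

/-- pulling back along an index permutation -/
lemma integral_comp_perm (j : Fin 4 → Fin 4) (hj : Function.Injective j)
    (hsymm : ∀ x : Fin 4 → ℝ × ℝ, F4 (x (j 0)) (x (j 1)) (x (j 2)) (x (j 3)) =
      F4 (x 0) (x 1) (x 2) (x 3)) (φ : ℝ × ℝ → ℝ) (hφ : Measurable φ) :
    ∫ x in {x : Fin 4 → ℝ × ℝ | 0 < F4 (x 0) (x 1) (x 2) (x 3)}, φ (x (j 0)) * φ (x (j 1))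
        ∂(Measure.pi fun _ : Fin 4 => μ) =
    ∫ x in {x : Fin 4 → ℝ × ℝ | 0 < F4 (x 0) (x 1) (x 2) (x 3)}, φ (x 0) * φ (x 1)
        ∂(Measure.pi fun _ : Fin 4 => μ) := by
  rw [← integral_indicator measurableSet_pos, ← integral_indicator measurableSet_pos]
  have hmeas : Measurable (({x : Fin 4 → ℝ × ℝ | 0 < F4 (x 0) (x 1) (x 2) (x 3)}).indicator
      (fun x => φ (x 0) * φ (x 1))) := by
    refine Measurable.indicator ?_ measurableSet_pos
    exact (hφ.comp (measurable_pi_apply 0)).mul (hφ.comp (measurable_pi_apply 1))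
  have hcomp : Measurable (fun x : Fin 4 → ℝ × ℝ => x ∘ j) :=
    measurable_pi_lambda _ fun i => measurable_pi_apply (j i)
  conv_rhs => rw [← map_comp_pi j hj μ]
  rw [integral_map hcomp.aemeasurable hmeas.aestronglyMeasurable]
  refine integral_congr_ae (Filter.Eventually.of_forall fun x => ?_)
  simp only [Set.indicator, Function.comp, Set.mem_ofPred_eq]
  rw [hsymm x]

lemma e2_integral (φ : ℝ × ℝ → ℝ) (hφ : Measurable φ) (hb : ∀ x, |φ x| ≤ 1) :
    ∫ x in {x : Fin 4 → ℝ × ℝ | 0 < F4 (x 0) (x 1) (x 2) (x 3)}, e2 φ x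
        ∂(Measure.pi fun _ : Fin 4 => μ) =
    6 * ∫ x in {x : Fin 4 → ℝ × ℝ | 0 < F4 (x 0) (x 1) (x 2) (x 3)}, φ (x 0) * φ (x 1)
        ∂(Measure.pi fun _ : Fin 4 => μ) := by
  set T := {x : Fin 4 → ℝ × ℝ | 0 < F4 (x 0) (x 1) (x 2) (x 3)} with hT
  set Q := Measure.pi fun _ : Fin 4 => μ with hQ
  have hbp : ∀ a b : ℝ × ℝ, |φ a * φ b| ≤ 1 := by
    intro a b; rw [abs_mul]; exact mul_le_one₀ (hb a) (abs_nonneg _) (hb b)
  have hI : ∀ i k : Fin 4, Integrable (fun x : Fin 4 → ℝ × ℝ => φ (x i) * φ (x k))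
      (Q.restrict T) := fun i k =>
    integrable_of_bdd _ _ ((hφ.comp (measurable_pi_apply i)).mul (hφ.comp (measurable_pi_apply k)))
      1 (fun x => hbp _ _)
  have e : ∫ x in T, e2 φ x ∂Q =
      (∫ x in T, φ (x 0) * φ (x 1) ∂Q) + (∫ x in T, φ (x 0) * φ (x 2) ∂Q) +
      (∫ x in T, φ (x 0) * φ (x 3) ∂Q) + (∫ x in T, φ (x 1) * φ (x 2) ∂Q) +
      (∫ x in T, φ (x 1) * φ (x 3) ∂Q) + (∫ x in T, φ (x 2) * φ (x 3) ∂Q) := by
    have i1 : Integrable (fun x : Fin 4 → ℝ × ℝ => φ (x 0) * φ (x 1) + φ (x 0) * φ (x 2))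
      (Q.restrict T) := (hI 0 1).add (hI 0 2)
    have i2 : Integrable (fun x : Fin 4 → ℝ × ℝ => φ (x 0) * φ (x 1) + φ (x 0) * φ (x 2) +
      φ (x 0) * φ (x 3)) (Q.restrict T) := i1.add (hI 0 3)
    have i3 : Integrable (fun x : Fin 4 → ℝ × ℝ => φ (x 0) * φ (x 1) + φ (x 0) * φ (x 2) +
      φ (x 0) * φ (x 3) + φ (x 1) * φ (x 2)) (Q.restrict T) := i2.add (hI 1 2)
    have i4 : Integrable (fun x : Fin 4 → ℝ × ℝ => φ (x 0) * φ (x 1) + φ (x 0) * φ (x 2) +
      φ (x 0) * φ (x 3) + φ (x 1) * φ (x 2) + φ (x 1) * φ (x 3)) (Q.restrict T) := i3.add (hI 1 3)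
    unfold e2
    rw [integral_add i4 (hI 2 3), integral_add i3 (hI 1 3), integral_add i2 (hI 1 2),
      integral_add i1 (hI 0 3), integral_add (hI 0 1) (hI 0 2)]
  have h02 := integral_comp_perm μ ![0, 2, 1, 3] (by decide)
    (fun x => by simp only [Matrix.cons_val_zero, Matrix.cons_val_one, Matrix.cons_val]; unfold F4 ori; ring) φ hφ
  have h03 := integral_comp_perm μ ![0, 3, 1, 2] (by decide)
    (fun x => by simp only [Matrix.cons_val_zero, Matrix.cons_val_one, Matrix.cons_val]; unfold F4 ori; ring) φ hφ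
  have h12 := integral_comp_perm μ ![1, 2, 0, 3] (by decide)
    (fun x => by simp only [Matrix.cons_val_zero, Matrix.cons_val_one, Matrix.cons_val]; unfold F4 ori; ring) φ hφ
  have h13 := integral_comp_perm μ ![1, 3, 0, 2] (by decide)
    (fun x => by simp only [Matrix.cons_val_zero, Matrix.cons_val_one, Matrix.cons_val]; unfold F4 ori; ring) φ hφ
  have h23 := integral_comp_perm μ ![2, 3, 0, 1] (by decide)
    (fun x => by simp only [Matrix.cons_val_zero, Matrix.cons_val_one, Matrix.cons_val]; unfold F4 ori; ring) φ hφ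
  simp only [Matrix.cons_val_zero, Matrix.cons_val_one] at h02 h03 h12 h13 h23
  rw [e, h02, h03, h12, h13, h23]
  ring

lemma pair_integral (φ : ℝ × ℝ → ℝ) (hφ : Measurable φ) (hb : ∀ x, |φ x| ≤ 1) :
    ∫ x in {x : Fin 4 → ℝ × ℝ | 0 < F4 (x 0) (x 1) (x 2) (x 3)}, φ (x 0) * φ (x 1)
        ∂(Measure.pi fun _ : Fin 4 => μ) =
    ∫ p, φ p.1 * φ p.2 * k2 μ p.1 p.2 ∂(μ.prod μ) := by
  rw [← integral_indicator measurableSet_pos]
  have hmeas : Measurable (({x : Fin 4 → ℝ × ℝ | 0 < F4 (x 0) (x 1) (x 2) (x 3)}).indicator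
      (fun x => φ (x 0) * φ (x 1))) := by
    refine Measurable.indicator ?_ measurableSet_pos
    exact (hφ.comp (measurable_pi_apply 0)).mul (hφ.comp (measurable_pi_apply 1))
  rw [← map_pi4 μ, integral_map measurable_tuple4.aemeasurable hmeas.aestronglyMeasurable]
  have hbp : ∀ a b : ℝ × ℝ, |φ a * φ b| ≤ 1 := by
    intro a b; rw [abs_mul]; exact mul_le_one₀ (hb a) (abs_nonneg _) (hb b)
  rw [integral_prod]
  · refine integral_congr_ae (Filter.Eventually.of_forall fun p => ?_)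
    have hm2 : MeasurableSet {q : (ℝ × ℝ) × (ℝ × ℝ) | 0 < F4 p.1 p.2 q.1 q.2} := by
      refine measurableSet_lt measurable_const ?_
      unfold F4 ori; fun_prop
    have hfun : ∀ q : (ℝ × ℝ) × (ℝ × ℝ),
        ({x : Fin 4 → ℝ × ℝ | 0 < F4 (x 0) (x 1) (x 2) (x 3)}).indicator
          (fun x => φ (x 0) * φ (x 1)) ![p.1, p.2, q.1, q.2] =
        ({q : (ℝ × ℝ) × (ℝ × ℝ) | 0 < F4 p.1 p.2 q.1 q.2}).indicator
          (fun _ => φ p.1 * φ p.2) q := by
      intro q
      by_cases h : 0 < F4 p.1 p.2 q.1 q.2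
      · rw [Set.indicator_of_mem, Set.indicator_of_mem]
        · simp
        · exact h
        · exact h
      · rw [Set.indicator_of_notMem, Set.indicator_of_notMem]
        · exact h
        · exact h
    have hfun2 : ∫ q, ({x : Fin 4 → ℝ × ℝ | 0 < F4 (x 0) (x 1) (x 2) (x 3)}).indicator
          (fun x => φ (x 0) * φ (x 1)) ![p.1, p.2, q.1, q.2] ∂(μ.prod μ) =
        φ p.1 * φ p.2 * k2 μ p.1 p.2 := by
      rw [integral_congr_ae (Filter.Eventually.of_forall hfun), integral_indicator hm2]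
      simp [k2, mul_comm]
    exact hfun2
  · refine integrable_of_bdd _ _ (hmeas.comp measurable_tuple4) 1 fun p => ?_
    simp only [Set.indicator]
    split_ifs
    · exact hbp _ _
    · simp

/-- the second variation inequality -/
lemma second_variation (hac : μ ≪ volume)
    (hmin : ∀ D, Admissible D → phi μ ≤ phi (cond volume D))
    (φ : ℝ × ℝ → ℝ) (hφ : Measurable φ) (hb : ∀ x, |φ x| ≤ 1)
    (hint : ∫ x, φ x ∂μ = 0) :
    0 ≤ ∫ p, φ p.1 * φ p.2 * k2 μ p.1 p.2 ∂(μ.prod μ) := by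
  have h1 := e2_nonneg μ hac hmin φ hφ hb hint
  rw [e2_integral μ φ hφ hb, pair_integral μ φ hφ hb] at h1
  linarith

/-- the second variation inequality, arbitrary bounded test functions -/
lemma second_variation' (hac : μ ≪ volume)
    (hmin : ∀ D, Admissible D → phi μ ≤ phi (cond volume D))
    (φ : ℝ × ℝ → ℝ) (hφ : Measurable φ) (C : ℝ) (hC : 0 < C) (hb : ∀ x, |φ x| ≤ C)
    (hint : ∫ x, φ x ∂μ = 0) :
    0 ≤ ∫ p, φ p.1 * φ p.2 * k2 μ p.1 p.2 ∂(μ.prod μ) := by
  have h1 := second_variation μ hac hmin (fun x => C⁻¹ * φ x) (by fun_prop) (fun x => by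
    rw [abs_mul, abs_inv, abs_of_pos hC, inv_mul_le_iff₀ hC, mul_one]; exact hb x) (by
    rw [integral_const_mul, hint, mul_zero])
  have h2 : ∫ p, (C⁻¹ * φ p.1) * (C⁻¹ * φ p.2) * k2 μ p.1 p.2 ∂(μ.prod μ) =
      (C⁻¹) ^ 2 * ∫ p, φ p.1 * φ p.2 * k2 μ p.1 p.2 ∂(μ.prod μ) := by
    rw [← integral_const_mul]
    refine integral_congr_ae (Filter.Eventually.of_forall fun p => ?_)
    ring
  rw [h2] at h1
  exact nonneg_of_mul_nonneg_right h1 (by positivity)

end var

open Filter Topology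

/-- blow-up kernel polynomial -/
def G (a : ℝ × ℝ) (s : ℝ) (v : ℝ × ℝ) (q : (ℝ × ℝ) × (ℝ × ℝ)) : ℝ :=
  cr v (q.1 - a) * cr v (q.2 - a) * ori a q.1 q.2 * ori (a + s • v) q.1 q.2

noncomputable def Psi (μ : Measure (ℝ × ℝ)) (a : ℝ × ℝ) (s : ℝ) (v : ℝ × ℝ) : ℝ :=
  (μ.prod μ).real {q | 0 < G a s v q}

lemma F4_eq_G (a : ℝ × ℝ) (s : ℝ) (v : ℝ × ℝ) (q : (ℝ × ℝ) × (ℝ × ℝ)) :
    F4 a (a + s • v) q.1 q.2 = s ^ 2 * G a s v q := by
  have h1 : ori a (a + s • v) q.1 = s * cr v (q.1 - a) := by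
    unfold ori cr; simp; ring
  have h2 : ori a (a + s • v) q.2 = s * cr v (q.2 - a) := by
    unfold ori cr; simp; ring
  unfold F4 G
  rw [h1, h2]; ring

lemma k2_eq_Psi (μ : Measure (ℝ × ℝ)) (a : ℝ × ℝ) (s : ℝ) (hs : s ≠ 0) (v : ℝ × ℝ) :
    k2 μ a (a + s • v) = Psi μ a s v := by
  unfold k2 Psi
  congr 1
  ext q
  simp only [Set.mem_ofPred_eq]
  rw [F4_eq_G]
  have : 0 < s ^ 2 := by positivity
  exact mul_pos_iff_of_pos_left this

lemma k2_eq_Psi_one (μ : Measure (ℝ × ℝ)) (a b : ℝ × ℝ) :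
    k2 μ a b = Psi μ a 1 (b - a) := by
  rw [← k2_eq_Psi μ a 1 one_ne_zero]
  congr 1; simp

lemma k2_symm (μ : Measure (ℝ × ℝ)) (a b : ℝ × ℝ) : k2 μ a b = k2 μ b a := by
  unfold k2
  congr 1
  ext q
  simp only [Set.mem_ofPred_eq]
  rw [F4_swap01]

section
variable (μ : Measure (ℝ × ℝ)) [IsProbabilityMeasure μ] (hac : μ ≪ volume)
include hac

lemma measurableSet_G_ne (a : ℝ × ℝ) (s : ℝ) (v : ℝ × ℝ) : MeasurableSet {q | G a s v q ≠ 0} := by
  refine (measurableSet_eq_fun ?_ measurable_const).compl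
  unfold G cr ori; fun_prop

lemma ae_G_ne (a : ℝ × ℝ) (s : ℝ) (v : ℝ × ℝ) (hv : v ≠ 0) :
    ∀ᵐ q ∂(μ.prod μ), G a s v q ≠ 0 := by
  refine (Measure.ae_prod_iff_ae_ae (measurableSet_G_ne μ hac a s v)).2 ?_
  filter_upwards [ae_cr_ne μ hac a v hv, ae_ne μ hac a, ae_ne μ hac (a + s • v)] with z h1 h2 h3
  filter_upwards [ae_cr_ne μ hac a v hv, ae_ori_ne μ hac a z (Ne.symm h2),
    ae_ori_ne μ hac (a + s • v) z (Ne.symm h3)] with w h4 h5 h6
  exact mul_ne_zero (mul_ne_zero (mul_ne_zero h1 h4) h5) h6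

lemma continuousAt_Psi (a : ℝ × ℝ) (s : ℝ) (v : ℝ × ℝ) (hv : v ≠ 0) :
    ContinuousAt (fun p : (ℝ × ℝ) × ℝ × (ℝ × ℝ) => Psi μ p.1 p.2.1 p.2.2) (a, s, v) := by
  have hm : ∀ p : (ℝ × ℝ) × ℝ × (ℝ × ℝ), MeasurableSet {q | 0 < G p.1 p.2.1 p.2.2 q} := by
    intro p
    refine measurableSet_lt measurable_const ?_
    unfold G cr ori; fun_prop
  have e : (fun p : (ℝ × ℝ) × ℝ × (ℝ × ℝ) => Psi μ p.1 p.2.1 p.2.2) =
      fun p => ∫ q, ({q | 0 < G p.1 p.2.1 p.2.2 q}).indicator (fun _ => (1:ℝ)) q ∂(μ.prod μ) := by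
    funext p
    rw [integral_indicator (hm p)]
    simp [Psi]
  rw [e]
  refine continuousAt_of_dominated (bound := fun _ => (1:ℝ)) ?_ ?_ (integrable_const _) ?_
  · exact Eventually.of_forall fun p =>
      (measurable_const.indicator (hm p)).aestronglyMeasurable
  · refine Eventually.of_forall fun p => Eventually.of_forall fun q => ?_
    by_cases h : q ∈ {q | 0 < G p.1 p.2.1 p.2.2 q}
    · rw [Set.indicator_of_mem h]; simp
    · rw [Set.indicator_of_notMem h]; simp
  · filter_upwards [ae_G_ne μ hac a s v hv] with q hq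
    have hcont : Continuous (fun p : (ℝ × ℝ) × ℝ × (ℝ × ℝ) => G p.1 p.2.1 p.2.2 q) := by
      unfold G cr ori; fun_prop
    rcases lt_or_gt_of_ne hq with h | h
    · have h1 : ∀ᶠ p in 𝓝 (a, s, v), G p.1 p.2.1 p.2.2 q < 0 :=
        hcont.continuousAt.eventually (Iio_mem_nhds h)
      refine ContinuousAt.congr (f := fun _ => (0:ℝ)) continuousAt_const ?_
      filter_upwards [h1] with p hp
      rw [Set.indicator_of_notMem]
      intro hq'
      exact lt_asymm hp hq'
    · have h1 : ∀ᶠ p in 𝓝 (a, s, v), 0 < G p.1 p.2.1 p.2.2 q :=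
        hcont.continuousAt.eventually (Ioi_mem_nhds h)
      refine ContinuousAt.congr (f := fun _ => (1:ℝ)) continuousAt_const ?_
      filter_upwards [h1] with p hp
      rw [Set.indicator_of_mem]
      exact hp

lemma continuousAt_k2 (a b : ℝ × ℝ) (hab : a ≠ b) :
    ContinuousAt (fun p : (ℝ × ℝ) × (ℝ × ℝ) => k2 μ p.1 p.2) (a, b) := by
  have h1 := continuousAt_Psi μ hac a 1 (b - a) (sub_ne_zero.2 (Ne.symm hab))
  have h2 : ContinuousAt (fun p : (ℝ × ℝ) × (ℝ × ℝ) => (p.1, (1:ℝ), p.2 - p.1)) (a, b) := by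
    fun_prop
  have h3 := ContinuousAt.comp (f := fun p : (ℝ × ℝ) × (ℝ × ℝ) => (p.1, (1:ℝ), p.2 - p.1))
    (g := fun p : (ℝ × ℝ) × ℝ × (ℝ × ℝ) => Psi μ p.1 p.2.1 p.2.2) (x := (a, b)) h1 h2
  refine h3.congr (Eventually.of_forall fun p => ?_)
  simp only [Function.comp]
  exact (k2_eq_Psi_one μ p.1 p.2).symm

/-- mass of the open half plane to the left -/
noncomputable def mp (μ : Measure (ℝ × ℝ)) (x u : ℝ × ℝ) : ℝ := μ.real {z | 0 < cr u (z - x)}

omit hac in
lemma measurableSet_half (x u : ℝ × ℝ) : MeasurableSet {z : ℝ × ℝ | 0 < cr u (z - x)} := by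
  refine measurableSet_lt measurable_const ?_
  unfold cr; fun_prop

omit hac in
lemma measurableSet_half' (x u : ℝ × ℝ) : MeasurableSet {z : ℝ × ℝ | cr u (z - x) < 0} := by
  refine measurableSet_lt ?_ measurable_const
  unfold cr; fun_prop

lemma half_compl (x u : ℝ × ℝ) (hu : u ≠ 0) : μ.real {z | cr u (z - x) < 0} = 1 - mp μ x u := by
  have h1 : μ.real {z | cr u (z - x) < 0} = μ.real ({z | 0 < cr u (z - x)}ᶜ) := by
    apply measureReal_congr
    filter_upwards [ae_cr_ne μ hac x u hu] with z hz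
    apply propext
    constructor
    · intro h h'
      exact lt_asymm h h'
    · intro h
      have h' : ¬ (0 < cr u (z - x)) := h
      exact lt_of_le_of_ne (not_lt.1 h') hz
  rw [h1, probReal_compl_eq_one_sub (measurableSet_half x u)]
  rfl

lemma Psi_zero (x u : ℝ × ℝ) (hu : u ≠ 0) :
    Psi μ x 0 u = mp μ x u ^ 2 + (1 - mp μ x u) ^ 2 := by
  unfold Psi
  have h1 : (μ.prod μ).real {q | 0 < G x 0 u q} =
      (μ.prod μ).real (({z | 0 < cr u (z - x)} ×ˢ {z | 0 < cr u (z - x)}) ∪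
        ({z | cr u (z - x) < 0} ×ˢ {z | cr u (z - x) < 0})) := by
    apply measureReal_congr
    filter_upwards [ae_G_ne μ hac x 0 u hu] with q hq
    apply propext
    have e : G x 0 u q = (cr u (q.1 - x) * cr u (q.2 - x)) * (ori x q.1 q.2) ^ 2 := by
      unfold G; simp; ring
    have hne : ori x q.1 q.2 ≠ 0 := by
      intro h0; rw [e, h0] at hq; simp at hq
    have hpos : 0 < (ori x q.1 q.2) ^ 2 := by positivity
    constructor
    · intro h
      have h' : 0 < G x 0 u q := h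
      rw [e] at h'
      have h2 : 0 < cr u (q.1 - x) * cr u (q.2 - x) := pos_of_mul_pos_left h' hpos.le
      rcases mul_pos_iff.1 h2 with h3 | h3
      · left; exact h3
      · right; exact h3
    · intro h
      change 0 < G x 0 u q
      rw [e]
      refine mul_pos ?_ hpos
      rcases h with h | h
      · exact mul_pos h.1 h.2
      · exact mul_pos_of_neg_of_neg h.1 h.2
  rw [h1, measureReal_union]
  · rw [measureReal_prod_prod, measureReal_prod_prod, half_compl μ hac x u hu]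
    unfold mp; ring
  · rw [Set.disjoint_left]
    rintro q ⟨h1, _⟩ ⟨h2, _⟩
    have h1' : 0 < cr u (q.1 - x) := h1
    have h2' : cr u (q.1 - x) < 0 := h2
    exact lt_asymm h1' h2'
  · exact (measurableSet_half' x u).prod (measurableSet_half' x u)

lemma continuousAt_mp (x u : ℝ × ℝ) (hu : u ≠ 0) : ContinuousAt (fun v => mp μ x v) u := by
  have e : (fun v => mp μ x v) =
      fun v => ∫ q, ({q | 0 < cr v (q - x)}).indicator (fun _ => (1:ℝ)) q ∂μ := by
    funext p
    rw [integral_indicator (measurableSet_half x p)]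
    simp [mp]
  rw [e]
  refine continuousAt_of_dominated (bound := fun _ => (1:ℝ)) ?_ ?_ (integrable_const _) ?_
  · exact Eventually.of_forall fun p =>
      (measurable_const.indicator (measurableSet_half x p)).aestronglyMeasurable
  · refine Eventually.of_forall fun p => Eventually.of_forall fun q => ?_
    by_cases h : q ∈ {q | 0 < cr p (q - x)}
    · rw [Set.indicator_of_mem h]; simp
    · rw [Set.indicator_of_notMem h]; simp
  · filter_upwards [ae_cr_ne μ hac x u hu] with q hq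
    have hcont : Continuous (fun p : ℝ × ℝ => cr p (q - x)) := by
      unfold cr; fun_prop
    rcases lt_or_gt_of_ne hq with h | h
    · have h1 : ∀ᶠ p in 𝓝 u, cr p (q - x) < 0 :=
        hcont.continuousAt.eventually (Iio_mem_nhds h)
      refine ContinuousAt.congr (f := fun _ => (0:ℝ)) continuousAt_const ?_
      filter_upwards [h1] with p hp
      rw [Set.indicator_of_notMem]
      intro hq'
      exact lt_asymm hp hq'
    · have h1 : ∀ᶠ p in 𝓝 u, 0 < cr p (q - x) :=
        hcont.continuousAt.eventually (Ioi_mem_nhds h)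
      refine ContinuousAt.congr (f := fun _ => (1:ℝ)) continuousAt_const ?_
      filter_upwards [h1] with p hp
      rw [Set.indicator_of_mem]
      exact hp

/-- a halving direction exists at every point -/
lemma exists_halving (x : ℝ × ℝ) : ∃ u : ℝ × ℝ, u ≠ 0 ∧ mp μ x u = 1 / 2 := by
  have hne : ∀ θ : ℝ, ((Real.cos θ, Real.sin θ) : ℝ × ℝ) ≠ 0 := by
    intro θ h
    have h1 : Real.cos θ = 0 := congrArg Prod.fst h
    have h2 : Real.sin θ = 0 := congrArg Prod.snd h
    have := Real.cos_sq_add_sin_sq θ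
    rw [h1, h2] at this; norm_num at this
  set f : ℝ → ℝ := fun θ => mp μ x (Real.cos θ, Real.sin θ) with hf
  have hfc : Continuous f := by
    rw [continuous_iff_continuousAt]
    intro θ
    have h1 := continuousAt_mp μ hac x (Real.cos θ, Real.sin θ) (hne θ)
    have h2 : ContinuousAt (fun θ : ℝ => ((Real.cos θ, Real.sin θ) : ℝ × ℝ)) θ := by fun_prop
    exact ContinuousAt.comp (f := fun θ : ℝ => ((Real.cos θ, Real.sin θ) : ℝ × ℝ))
      (g := fun v => mp μ x v) (x := θ) h1 h2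
  have hpi : f Real.pi = 1 - f 0 := by
    have h0 : f 0 = mp μ x (1, 0) := by simp [hf]
    rw [h0, ← half_compl μ hac x (1, 0) (by simp)]
    rw [hf]
    simp only [mp, Real.cos_pi, Real.sin_pi]
    congr 1
    ext z
    simp only [Set.mem_ofPred_eq]
    unfold cr
    simp
  have hiv := intermediate_value_Icc' (f := f) Real.pi_pos.le hfc.continuousOn
  have hiv' := intermediate_value_Icc (f := f) Real.pi_pos.le hfc.continuousOn
  rcases le_total (f 0) (1/2) with h | h
  · obtain ⟨θ, _, hθ⟩ := hiv' (show (1/2 : ℝ) ∈ Set.Icc (f 0) (f Real.pi) from ⟨h, by rw [hpi]; linarith⟩)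
    exact ⟨_, hne θ, hθ⟩
  · obtain ⟨θ, _, hθ⟩ := hiv (show (1/2 : ℝ) ∈ Set.Icc (f Real.pi) (f 0) from ⟨by rw [hpi]; linarith, h⟩)
    exact ⟨_, hne θ, hθ⟩

end

/-- points all of whose neighbourhoods are charged -/
def InSupp (μ : Measure (ℝ × ℝ)) (x : ℝ × ℝ) : Prop := ∀ r : ℝ, 0 < r → 0 < μ (Metric.closedBall x r)

section
variable (μ : Measure (ℝ × ℝ)) [IsProbabilityMeasure μ] (hac : μ ≪ volume)
include hac

lemma points_ineq (hmin : ∀ D, Admissible D → phi μ ≤ phi (cond volume D))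
    {ι : Type} [Fintype ι] [DecidableEq ι] (e : ι → ℝ × ℝ) (he : Function.Injective e)
    (hs : ∀ i, InSupp μ (e i)) (w : ι → ℝ) (hw : ∑ i, w i = 0) :
    0 ≤ ∑ i, ∑ j, (if i = j then w i * w j else w i * w j * k2 μ (e i) (e j)) := by
  set C : ℝ := ∑ i, ∑ j, |w i * w j| with hC
  have hCnn : 0 ≤ C := Finset.sum_nonneg fun i _ => Finset.sum_nonneg fun j _ => abs_nonneg _
  refine le_of_forall_pos_le_add fun ε hε => ?_
  set δ := ε / (C + 1) with hδ
  have hδpos : 0 < δ := by positivity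
  -- choose radius
  have hev : ∀ᶠ ρ in 𝓝[>] (0:ℝ), ∀ i j, i ≠ j → ∀ p ∈ Metric.closedBall (e i) ρ,
      ∀ q ∈ Metric.closedBall (e j) ρ, |k2 μ p q - k2 μ (e i) (e j)| ≤ δ := by
    rw [eventually_all]; intro i
    rw [eventually_all]; intro j
    by_cases hij : i = j
    · exact Eventually.of_forall fun ρ h => absurd hij h
    · have hc := continuousAt_k2 μ hac (e i) (e j) (fun h => hij (he h))
      rw [Metric.continuousAt_iff] at hc
      obtain ⟨η, hη, hc⟩ := hc δ hδpos
      have : Set.Ioo (0:ℝ) η ∈ 𝓝[>] (0:ℝ) := Ioo_mem_nhdsGT hη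
      filter_upwards [this] with ρ hρ _ p hp q hq
      have h1 : dist (p, q) (e i, e j) < η := by
        rw [Prod.dist_eq]
        exact max_lt (lt_of_le_of_lt (Metric.mem_closedBall.1 hp) hρ.2)
          (lt_of_le_of_lt (Metric.mem_closedBall.1 hq) hρ.2)
      have h2 := hc h1
      rw [Real.dist_eq] at h2
      exact h2.le
  obtain ⟨ρ, hρ, hρpos⟩ := (hev.and self_mem_nhdsWithin).exists
  have hρpos : 0 < ρ := hρpos
  set B : ι → Set (ℝ × ℝ) := fun i => Metric.closedBall (e i) ρ with hB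
  have hBm : ∀ i, MeasurableSet (B i) := fun i => Metric.isClosed_closedBall.measurableSet
  have hBpos : ∀ i, 0 < μ.real (B i) := fun i =>
    ENNReal.toReal_pos (hs i ρ hρpos).ne' (measure_ne_top _ _)
  set φ : ℝ × ℝ → ℝ := fun x => ∑ i, (w i / μ.real (B i)) * (B i).indicator (fun _ => (1:ℝ)) x with hφ
  have hφm : Measurable φ := by
    refine Finset.measurable_fun_sum _ fun i _ => ?_
    exact (measurable_const.indicator (hBm i)).const_mul _
  have hφb : ∀ x, |φ x| ≤ 1 + ∑ i, |w i / μ.real (B i)| := by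
    intro x
    refine le_trans (Finset.abs_sum_le_sum_abs _ _) ?_
    have : ∑ i, |w i / μ.real (B i) * (B i).indicator (fun _ => (1:ℝ)) x| ≤
        ∑ i, |w i / μ.real (B i)| := by
      refine Finset.sum_le_sum fun i _ => ?_
      rw [abs_mul]
      refine mul_le_of_le_one_right (abs_nonneg _) ?_
      by_cases h : x ∈ B i
      · rw [Set.indicator_of_mem h]; simp
      · rw [Set.indicator_of_notMem h]; simp
    linarith
  have hφint : ∫ x, φ x ∂μ = 0 := by
    rw [hφ, integral_finsetSum _ fun i _ =>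
      ((integrable_const (1:ℝ)).indicator (hBm i)).const_mul _]
    rw [← hw]
    refine Finset.sum_congr rfl fun i _ => ?_
    rw [integral_const_mul, integral_indicator (hBm i)]
    simp
    have := (hBpos i).ne'
    field_simp
  have hsv := second_variation' μ hac hmin φ hφm (1 + ∑ i, |w i / μ.real (B i)|)
    (by have : 0 ≤ ∑ i, |w i / μ.real (B i)| := Finset.sum_nonneg fun i _ => abs_nonneg _
        linarith) hφb hφint
  -- expand
  have hkint : ∀ s : Set ((ℝ × ℝ) × (ℝ × ℝ)), Integrable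
      (fun p : (ℝ × ℝ) × (ℝ × ℝ) => k2 μ p.1 p.2) ((μ.prod μ).restrict s) := by
    intro s
    refine integrable_of_bdd _ _ (measurable_k2 μ) 1 fun p => ?_
    rw [abs_of_nonneg (k2_nonneg _ _ _)]
    exact k2_le_one _ _ _
  have hexp : ∫ p, φ p.1 * φ p.2 * k2 μ p.1 p.2 ∂(μ.prod μ) =
      ∑ i, ∑ j, (w i / μ.real (B i)) * (w j / μ.real (B j)) *
        ∫ p in (B i ×ˢ B j), k2 μ p.1 p.2 ∂(μ.prod μ) := by
    have h1 : ∀ p : (ℝ × ℝ) × (ℝ × ℝ), φ p.1 * φ p.2 * k2 μ p.1 p.2 =
        ∑ i, ∑ j, (w i / μ.real (B i)) * (w j / μ.real (B j)) *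
          (B i ×ˢ B j).indicator (fun p : (ℝ × ℝ) × (ℝ × ℝ) => k2 μ p.1 p.2) p := by
      intro p
      rw [hφ]
      simp only
      rw [Finset.sum_mul_sum, Finset.sum_mul]
      refine Finset.sum_congr rfl fun i _ => ?_
      rw [Finset.sum_mul]
      refine Finset.sum_congr rfl fun j _ => ?_
      by_cases hi : p.1 ∈ B i
      · by_cases hj : p.2 ∈ B j
        · rw [Set.indicator_of_mem hi, Set.indicator_of_mem hj,
            Set.indicator_of_mem (show p ∈ B i ×ˢ B j from ⟨hi, hj⟩)]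
          ring
        · rw [Set.indicator_of_notMem hj, Set.indicator_of_notMem
            (fun h : p ∈ B i ×ˢ B j => hj h.2)]
          ring
      · rw [Set.indicator_of_notMem hi, Set.indicator_of_notMem
            (fun h : p ∈ B i ×ˢ B j => hi h.1)]
        ring
    rw [integral_congr_ae (Eventually.of_forall h1)]
    have hin : ∀ i j, Integrable (fun p => (w i / μ.real (B i)) * (w j / μ.real (B j)) *
          (B i ×ˢ B j).indicator (fun p : (ℝ × ℝ) × (ℝ × ℝ) => k2 μ p.1 p.2) p) (μ.prod μ) := by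
      intro i j
      refine Integrable.const_mul ?_ _
      rw [integrable_indicator_iff ((hBm i).prod (hBm j))]
      exact hkint _
    rw [integral_finsetSum _ fun i _ => integrable_finsetSum _ fun j _ => hin i j]
    refine Finset.sum_congr rfl fun i _ => ?_
    rw [integral_finsetSum _ fun j _ => hin i j]
    refine Finset.sum_congr rfl fun j _ => ?_
    rw [integral_const_mul, integral_indicator ((hBm i).prod (hBm j))]
  rw [hexp] at hsv
  -- bound each term
  have hterm : ∀ i j, (w i / μ.real (B i)) * (w j / μ.real (B j)) *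
        ∫ p in (B i ×ˢ B j), k2 μ p.1 p.2 ∂(μ.prod μ) ≤
      (if i = j then w i * w j else w i * w j * k2 μ (e i) (e j)) + |w i * w j| * δ := by
    intro i j
    have hi := hBpos i
    have hj := hBpos j
    have hprod : (μ.prod μ).real (B i ×ˢ B j) = μ.real (B i) * μ.real (B j) :=
      measureReal_prod_prod _ _
    by_cases hij : i = j
    · rw [if_pos hij]
      subst hij
      have h1 : ∫ p in (B i ×ˢ B i), k2 μ p.1 p.2 ∂(μ.prod μ) ≤ μ.real (B i) * μ.real (B i) := by
        rw [← hprod]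
        have h2 : ∫ p in (B i ×ˢ B i), k2 μ p.1 p.2 ∂(μ.prod μ) ≤
            ∫ p in (B i ×ˢ B i), (1:ℝ) ∂(μ.prod μ) :=
          integral_mono (hkint _) (integrable_const _) fun p => k2_le_one _ _ _
        refine le_trans h2 ?_
        simp
      have h3 : w i / μ.real (B i) * (w i / μ.real (B i)) *
          ∫ p in (B i ×ˢ B i), k2 μ p.1 p.2 ∂(μ.prod μ) ≤ w i * w i := by
        have h4 : w i / μ.real (B i) * (w i / μ.real (B i)) * (μ.real (B i) * μ.real (B i)) =
            w i * w i := by field_simp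
        rw [← h4]
        refine mul_le_mul_of_nonneg_left h1 ?_
        exact mul_self_nonneg _
      have h5 : 0 ≤ |w i * w i| * δ := by positivity
      linarith
    · rw [if_neg hij]
      have hkb : ∀ p ∈ B i ×ˢ B j, |k2 μ p.1 p.2 - k2 μ (e i) (e j)| ≤ δ := fun p hp =>
        hρ i j hij p.1 hp.1 p.2 hp.2
      have h1 : |(∫ p in (B i ×ˢ B j), k2 μ p.1 p.2 ∂(μ.prod μ)) -
          μ.real (B i) * μ.real (B j) * k2 μ (e i) (e j)| ≤ δ * (μ.real (B i) * μ.real (B j)) := by
        have h2 : (∫ p in (B i ×ˢ B j), k2 μ p.1 p.2 ∂(μ.prod μ)) -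
          μ.real (B i) * μ.real (B j) * k2 μ (e i) (e j) =
          ∫ p in (B i ×ˢ B j), (k2 μ p.1 p.2 - k2 μ (e i) (e j)) ∂(μ.prod μ) := by
          rw [integral_sub (hkint _) (integrable_const _)]
          congr 1
          rw [← hprod]
          simp
        rw [h2]
        have h3 := norm_setIntegral_le_of_norm_le_const (μ := μ.prod μ) (s := B i ×ˢ B j)
          (f := fun p => k2 μ p.1 p.2 - k2 μ (e i) (e j)) (C := δ) (measure_lt_top _ _)
          (fun p hp => by rw [Real.norm_eq_abs]; exact hkb p hp)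
        rw [Real.norm_eq_abs, hprod] at h3
        exact h3
      set I := ∫ p in (B i ×ˢ B j), k2 μ p.1 p.2 ∂(μ.prod μ) with hI
      have h4 : w i / μ.real (B i) * (w j / μ.real (B j)) * I - w i * w j * k2 μ (e i) (e j) =
          (w i * w j) * ((I - μ.real (B i) * μ.real (B j) * k2 μ (e i) (e j)) /
            (μ.real (B i) * μ.real (B j))) := by
        field_simp
      have h5 : |(I - μ.real (B i) * μ.real (B j) * k2 μ (e i) (e j)) /
            (μ.real (B i) * μ.real (B j))| ≤ δ := by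
        rw [abs_div, abs_of_pos (mul_pos hi hj), div_le_iff₀ (mul_pos hi hj)]
        exact h1
      have h6 : w i / μ.real (B i) * (w j / μ.real (B j)) * I - w i * w j * k2 μ (e i) (e j) ≤
          |w i * w j| * δ := by
        rw [h4]
        refine le_trans (le_abs_self _) ?_
        rw [abs_mul]
        exact mul_le_mul_of_nonneg_left h5 (abs_nonneg _)
      linarith
  have hsum : ∑ i, ∑ j, (w i / μ.real (B i)) * (w j / μ.real (B j)) *
        ∫ p in (B i ×ˢ B j), k2 μ p.1 p.2 ∂(μ.prod μ) ≤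
      ∑ i, ∑ j, ((if i = j then w i * w j else w i * w j * k2 μ (e i) (e j)) + |w i * w j| * δ) :=
    Finset.sum_le_sum fun i _ => Finset.sum_le_sum fun j _ => hterm i j
  have hsplit : ∑ i, ∑ j, ((if i = j then w i * w j else w i * w j * k2 μ (e i) (e j)) +
      |w i * w j| * δ) = (∑ i, ∑ j, (if i = j then w i * w j else w i * w j * k2 μ (e i) (e j))) +
      C * δ := by
    simp only [Finset.sum_add_distrib]
    rw [hC, Finset.sum_mul]
    congr 1
    refine Finset.sum_congr rfl fun i _ => ?_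
    rw [Finset.sum_mul]
  have hCδ : C * δ ≤ ε := by
    rw [hδ, ← mul_div_assoc, div_le_iff₀ (by linarith)]
    nlinarith
  linarith

end

/-- point of the plane encoded by scale and direction -/
def pt (x : ℝ × ℝ) (t : ℝ × (ℝ × ℝ)) : ℝ × ℝ := x + t.1 • t.2

/-- the support of `μ` is reached from `x` in every direction -/
def DirPt (μ : Measure (ℝ × ℝ)) (x : ℝ × ℝ) : Prop :=
  ∀ u : ℝ × ℝ, ∀ η : ℝ, 0 < η → ∃ s : ℝ, ∃ v : ℝ × ℝ, 0 < s ∧ s < η ∧ dist v u < η ∧
    InSupp μ (x + s • v)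

lemma pt_add (x : ℝ × ℝ) (t t' : ℝ × (ℝ × ℝ)) (h : t'.1 ≠ 0) :
    pt x t + t'.1 • (t'.2 - (t.1 / t'.1) • t.2) = pt x t' := by
  unfold pt
  rw [smul_sub, smul_smul, mul_div_cancel₀ _ h]
  abel

lemma cluster (μ : Measure (ℝ × ℝ)) (x u : ℝ × ℝ) (hx : DirPt μ x)
    (W : Set ((ℝ × ℝ) × ℝ × (ℝ × ℝ))) (hW : IsOpen W) (hxW : (x, (0:ℝ), u) ∈ W)
    (hW0 : ∀ p ∈ W, p.2.2 ≠ 0) (M : ℕ) :
    ∃ T : Finset (ℝ × (ℝ × ℝ)), T.card = M ∧
      (∀ t ∈ T, 0 < t.1 ∧ (x, t.1, t.2) ∈ W ∧ InSupp μ (pt x t)) ∧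
      (∀ t ∈ T, ∀ t' ∈ T, t ≠ t' → pt x t ≠ pt x t' ∧
        ((pt x t, t'.1, t'.2 - (t.1 / t'.1) • t.2) ∈ W ∨
         (pt x t', t.1, t.2 - (t'.1 / t.1) • t'.2) ∈ W)) := by
  classical
  induction M with
  | zero => exact ⟨∅, rfl, by simp, by simp⟩
  | succ M ih =>
    obtain ⟨T, hcard, h1, h2⟩ := ih
    have hA : ∀ᶠ p in 𝓝 ((0:ℝ), u), (x, p.1, p.2) ∈ W := by
      have hc : ContinuousAt (fun p : ℝ × (ℝ × ℝ) => (x, p.1, p.2)) ((0:ℝ), u) := by fun_prop
      exact hc.eventually (hW.mem_nhds hxW)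
    have hB : ∀ᶠ p in 𝓝 ((0:ℝ), u), ∀ t ∈ T, (pt x p, t.1, t.2 - (p.1 / t.1) • p.2) ∈ W := by
      rw [Filter.eventually_all_finset]
      intro t ht
      have hc : ContinuousAt (fun p : ℝ × (ℝ × ℝ) => (pt x p, t.1, t.2 - (p.1 / t.1) • p.2))
          ((0:ℝ), u) := by
        unfold pt; fun_prop
      refine hc.eventually (hW.mem_nhds ?_)
      simp only [pt, zero_smul, add_zero, zero_div, sub_zero]
      exact (h1 t ht).2.1
    have hC : ∀ᶠ p in 𝓝 ((0:ℝ), u), ∀ t ∈ T, pt x p ≠ pt x t := by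
      rw [Filter.eventually_all_finset]
      intro t ht
      have hc : ContinuousAt (fun p : ℝ × (ℝ × ℝ) => pt x p) ((0:ℝ), u) := by
        unfold pt; fun_prop
      refine hc.eventually (isOpen_ne.mem_nhds ?_)
      simp only [pt, zero_smul, add_zero]
      intro h
      have h3 : t.1 • t.2 = 0 := left_eq_add.1 h
      rcases smul_eq_zero.1 h3 with h4 | h4
      · exact (h1 t ht).1.ne' h4
      · exact hW0 _ (h1 t ht).2.1 h4
    obtain ⟨η, hη, hall⟩ := Metric.eventually_nhds_iff.1 (hA.and (hB.and hC))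
    obtain ⟨s, v, hs0, hsη, hvη, hsupp⟩ := hx u η hη
    have hd : dist (s, v) ((0:ℝ), u) < η := by
      rw [Prod.dist_eq]
      refine max_lt ?_ hvη
      rw [Real.dist_eq, sub_zero, abs_of_pos hs0]; exact hsη
    obtain ⟨hA', hB', hC'⟩ := hall hd
    have hnot : (s, v) ∉ T := fun h => hC' _ h rfl
    refine ⟨insert (s, v) T, by rw [Finset.card_insert_of_notMem hnot, hcard], ?_, ?_⟩
    · intro t ht
      rcases Finset.mem_insert.1 ht with rfl | ht
      · exact ⟨hs0, hA', hsupp⟩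
      · exact h1 t ht
    · intro t ht t' ht' hne
      rcases Finset.mem_insert.1 ht with rfl | ht
      · rcases Finset.mem_insert.1 ht' with rfl | ht'
        · exact absurd rfl hne
        · exact ⟨hC' t' ht', Or.inl (hB' t' ht')⟩
      · rcases Finset.mem_insert.1 ht' with rfl | ht'
        · exact ⟨(hC' t ht).symm, Or.inr (hB' t ht)⟩
        · exact h2 t ht t' ht' hne

section
variable (μ : Measure (ℝ × ℝ)) [IsProbabilityMeasure μ] (hac : μ ≪ volume)
include hac

lemma Psi_half (x u : ℝ × ℝ) (hu : u ≠ 0) (hm : mp μ x u = 1 / 2) : Psi μ x 0 u = 1 / 2 := by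
  rw [Psi_zero μ hac x u hu, hm]; norm_num

/-- cluster near `x`, all kernel values near 1/2, all points inside `U` -/
lemma good_cluster (x : ℝ × ℝ) (hx : DirPt μ x) (U : Set (ℝ × ℝ)) (hU : U ∈ 𝓝 x) (δ : ℝ)
    (hδ : 0 < δ) (M : ℕ) :
    ∃ T : Finset (ℝ × (ℝ × ℝ)), T.card = M ∧
      (∀ t ∈ T, InSupp μ (pt x t) ∧ pt x t ∈ U) ∧
      (∀ t ∈ T, ∀ t' ∈ T, t ≠ t' → pt x t ≠ pt x t' ∧ k2 μ (pt x t) (pt x t') ≤ 1 / 2 + δ) := by
  obtain ⟨u, hu, hm⟩ := exists_halving μ hac x
  have hP := Psi_half μ hac x u hu hm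
  have e1 : ∀ᶠ p in 𝓝 (x, (0:ℝ), u), Psi μ p.1 p.2.1 p.2.2 < 1 / 2 + δ := by
    have hc := continuousAt_Psi μ hac x 0 u hu
    refine hc.eventually (Iio_mem_nhds ?_)
    change Psi μ x 0 u < 1 / 2 + δ
    rw [hP]; linarith
  have e2 : ∀ᶠ p in 𝓝 (x, (0:ℝ), u), p.2.2 ≠ 0 := by
    have hc : ContinuousAt (fun p : (ℝ × ℝ) × ℝ × (ℝ × ℝ) => p.2.2) (x, (0:ℝ), u) := by fun_prop
    exact hc.eventually (isOpen_ne.mem_nhds hu)
  have e3 : ∀ᶠ p in 𝓝 (x, (0:ℝ), u), p.1 + p.2.1 • p.2.2 ∈ U := by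
    have hc : ContinuousAt (fun p : (ℝ × ℝ) × ℝ × (ℝ × ℝ) => p.1 + p.2.1 • p.2.2)
      (x, (0:ℝ), u) := by fun_prop
    refine hc.eventually ?_
    simpa using hU
  obtain ⟨W, hWp, hWo, hxW⟩ := eventually_nhds_iff.1 (e1.and (e2.and e3))
  obtain ⟨T, hcard, h1, h2⟩ := cluster μ x u hx W hWo hxW (fun p hp => (hWp p hp).2.1) M
  refine ⟨T, hcard, fun t ht => ⟨(h1 t ht).2.2, (hWp _ (h1 t ht).2.1).2.2⟩, ?_⟩
  intro t ht t' ht' hne
  obtain ⟨h3, h4⟩ := h2 t ht t' ht' hne
  refine ⟨h3, ?_⟩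
  rcases h4 with h4 | h4
  · have h5 := (hWp _ h4).1
    simp only at h5
    rw [← k2_eq_Psi μ _ _ (h1 t' ht').1.ne', pt_add x t t' (h1 t' ht').1.ne'] at h5
    exact h5.le
  · have h5 := (hWp _ h4).1
    simp only at h5
    rw [← k2_eq_Psi μ _ _ (h1 t ht).1.ne', pt_add x t' t (h1 t ht).1.ne', k2_symm] at h5
    exact h5.le

lemma k2_le_half (hmin : ∀ D, Admissible D → phi μ ≤ phi (cond volume D))
    (x y : ℝ × ℝ) (hx : DirPt μ x) (hy : DirPt μ y) (hxy : x ≠ y) : k2 μ x y ≤ 1 / 2 := by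
  classical
  -- it is enough to have the bound with an error
  have key : ∀ δ : ℝ, 0 < δ → ∀ M : ℕ, 0 < M → k2 μ x y ≤ 1 / 2 + 2 * δ + 1 / M := by
    intro δ hδ M hM
    have hc := continuousAt_k2 μ hac x y hxy
    have hc2 : ∀ᶠ p in 𝓝 (x, y), k2 μ x y - δ < k2 μ p.1 p.2 := by
      refine hc.eventually (Ioi_mem_nhds ?_)
      change k2 μ x y - δ < k2 μ x y
      linarith
    rw [nhds_prod_eq] at hc2
    obtain ⟨pa, hpa, pb, hpb, hab⟩ := eventually_prod_iff.1 hc2
    have hdis : ∃ Ua ∈ 𝓝 x, ∃ Ub ∈ 𝓝 y, Disjoint Ua Ub := by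
      obtain ⟨Ua, Ub, h1, h2, h3, h4, h5⟩ := t2_separation hxy
      exact ⟨Ua, h1.mem_nhds h3, Ub, h2.mem_nhds h4, h5⟩
    obtain ⟨Ua, hUa, Ub, hUb, hUab⟩ := hdis
    obtain ⟨T, hTc, hT1, hT2⟩ := good_cluster μ hac x hx (Ua ∩ {z | pa z})
      (inter_mem hUa hpa) δ hδ M
    obtain ⟨T', hTc', hT1', hT2'⟩ := good_cluster μ hac y hy (Ub ∩ {z | pb z})
      (inter_mem hUb hpb) δ hδ M
    set e : ↥T ⊕ ↥T' → ℝ × ℝ := Sum.elim (fun t => pt x t.1) (fun t => pt y t.1) with he
    set w : ↥T ⊕ ↥T' → ℝ := Sum.elim (fun _ => 1) (fun _ => -1) with hw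
    have hinj : Function.Injective e := by
      intro i j hij
      rcases i with ⟨t, ht⟩ | ⟨t, ht⟩ <;> rcases j with ⟨t', ht'⟩ | ⟨t', ht'⟩
      · simp only [he, Sum.elim_inl] at hij
        by_cases h : t = t'
        · subst h; rfl
        · exact absurd hij (hT2 t ht t' ht' h).1
      · simp only [he, Sum.elim_inl, Sum.elim_inr] at hij
        exact absurd hij (Set.disjoint_left.1 hUab (hT1 t ht).2.1 |> fun h h' =>
          h (h' ▸ (hT1' t' ht').2.1))
      · simp only [he, Sum.elim_inl, Sum.elim_inr] at hij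
        exact absurd hij.symm (Set.disjoint_left.1 hUab (hT1 t' ht').2.1 |> fun h h' =>
          h (h' ▸ (hT1' t ht).2.1))
      · simp only [he, Sum.elim_inr] at hij
        by_cases h : t = t'
        · subst h; rfl
        · exact absurd hij (hT2' t ht t' ht' h).1
    have hsupp : ∀ i, InSupp μ (e i) := by
      rintro (⟨t, ht⟩ | ⟨t, ht⟩)
      · exact (hT1 t ht).1
      · exact (hT1' t ht).1
    have hw0 : ∑ i, w i = 0 := by
      rw [Fintype.sum_sum_type]
      simp [hw, hTc, hTc']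
    have hpi := points_ineq μ hac hmin e hinj hsupp w hw0
    rw [Fintype.sum_sum_type] at hpi
    simp_rw [Fintype.sum_sum_type] at hpi
    -- bounds
    have hMR : (0:ℝ) < M := by exact_mod_cast hM
    have b1 : ∀ i j : ↥T, (if (Sum.inl i : ↥T ⊕ ↥T') = Sum.inl j then w (Sum.inl i) * w (Sum.inl j)
        else w (Sum.inl i) * w (Sum.inl j) * k2 μ (e (Sum.inl i)) (e (Sum.inl j))) ≤
        (1 / 2 + δ) + (if i = j then 1 else 0) := by
      intro i j
      by_cases h : i = j
      · subst h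
        simp [hw]; linarith
      · rw [if_neg (fun h' => h (Sum.inl_injective h')), if_neg h]
        have := (hT2 i.1 i.2 j.1 j.2 (fun h' => h (Subtype.ext h'))).2
        simp only [hw, he, Sum.elim_inl, mul_one, one_mul, add_zero]
        exact this
    have b2 : ∀ i j : ↥T', (if (Sum.inr i : ↥T ⊕ ↥T') = Sum.inr j then w (Sum.inr i) * w (Sum.inr j)
        else w (Sum.inr i) * w (Sum.inr j) * k2 μ (e (Sum.inr i)) (e (Sum.inr j))) ≤
        (1 / 2 + δ) + (if i = j then 1 else 0) := by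
      intro i j
      by_cases h : i = j
      · subst h
        simp [hw]; linarith
      · rw [if_neg (fun h' => h (Sum.inr_injective h')), if_neg h]
        have := (hT2' i.1 i.2 j.1 j.2 (fun h' => h (Subtype.ext h'))).2
        simp only [hw, he, Sum.elim_inr, mul_neg, mul_one, neg_neg, one_mul, add_zero]
        exact this
    have b3 : ∀ (i : ↥T) (j : ↥T'), (if (Sum.inl i : ↥T ⊕ ↥T') = Sum.inr j then
        w (Sum.inl i) * w (Sum.inr j)
        else w (Sum.inl i) * w (Sum.inr j) * k2 μ (e (Sum.inl i)) (e (Sum.inr j))) ≤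
        -(k2 μ x y - δ) := by
      intro i j
      rw [if_neg (by simp)]
      have := hab (hT1 i.1 i.2).2.2 (hT1' j.1 j.2).2.2
      simp only [hw, he, Sum.elim_inl, Sum.elim_inr, mul_neg, mul_one, neg_mul, one_mul]
      simp only at this
      linarith
    have b4 : ∀ (i : ↥T') (j : ↥T), (if (Sum.inr i : ↥T ⊕ ↥T') = Sum.inl j then
        w (Sum.inr i) * w (Sum.inl j)
        else w (Sum.inr i) * w (Sum.inl j) * k2 μ (e (Sum.inr i)) (e (Sum.inl j))) ≤
        -(k2 μ x y - δ) := by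
      intro i j
      rw [if_neg (by simp)]
      have := hab (hT1 j.1 j.2).2.2 (hT1' i.1 i.2).2.2
      rw [k2_symm μ (e (Sum.inr i))]
      simp only [hw, he, Sum.elim_inl, Sum.elim_inr, mul_one, neg_mul, one_mul]
      simp only at this
      linarith
    have s1 := Finset.sum_le_sum fun (i : ↥T) (_ : i ∈ Finset.univ) =>
      Finset.sum_le_sum fun (j : ↥T) (_ : j ∈ Finset.univ) => b1 i j
    have s2 := Finset.sum_le_sum fun (i : ↥T') (_ : i ∈ Finset.univ) =>
      Finset.sum_le_sum fun (j : ↥T') (_ : j ∈ Finset.univ) => b2 i j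
    have s3 := Finset.sum_le_sum fun (i : ↥T) (_ : i ∈ Finset.univ) =>
      Finset.sum_le_sum fun (j : ↥T') (_ : j ∈ Finset.univ) => b3 i j
    have s4 := Finset.sum_le_sum fun (i : ↥T') (_ : i ∈ Finset.univ) =>
      Finset.sum_le_sum fun (j : ↥T) (_ : j ∈ Finset.univ) => b4 i j
    have c1 : ∑ i : ↥T, ∑ j : ↥T, ((1 / 2 + δ) + (if i = j then (1:ℝ) else 0)) =
        M * (M * (1 / 2 + δ) + 1) := by
      have : ∀ i : ↥T, ∑ j : ↥T, ((1 / 2 + δ) + (if i = j then (1:ℝ) else 0)) =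
        M * (1 / 2 + δ) + 1 := by
        intro i
        rw [Finset.sum_add_distrib]
        simp [hTc]; ring
      rw [Finset.sum_congr rfl fun i _ => this i]
      simp [hTc]; ring
    have c2 : ∑ i : ↥T', ∑ j : ↥T', ((1 / 2 + δ) + (if i = j then (1:ℝ) else 0)) =
        M * (M * (1 / 2 + δ) + 1) := by
      have : ∀ i : ↥T', ∑ j : ↥T', ((1 / 2 + δ) + (if i = j then (1:ℝ) else 0)) =
        M * (1 / 2 + δ) + 1 := by
        intro i
        rw [Finset.sum_add_distrib]
        simp [hTc']; ring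
      rw [Finset.sum_congr rfl fun i _ => this i]
      simp [hTc']; ring
    have c3 : ∑ i : ↥T, ∑ j : ↥T', (-(k2 μ x y - δ)) = M * (M * (-(k2 μ x y - δ))) := by
      simp [hTc, hTc']; ring
    have c4 : ∑ i : ↥T', ∑ j : ↥T, (-(k2 μ x y - δ)) = M * (M * (-(k2 μ x y - δ))) := by
      simp [hTc, hTc']; ring
    rw [c1] at s1
    rw [c2] at s2
    rw [c3] at s3
    rw [c4] at s4
    simp only [Finset.sum_add_distrib] at hpi
    have htot : 0 ≤ M * (M * (1 / 2 + δ) + 1) + M * (M * (1 / 2 + δ) + 1) +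
        M * (M * (-(k2 μ x y - δ))) + M * (M * (-(k2 μ x y - δ))) := by linarith
    have h5 : (k2 μ x y) * M ≤ (1 / 2 + 2 * δ) * M + 1 := by
      have : 0 ≤ (2 * (M:ℝ)) * ((1 / 2 + 2 * δ) * M + 1 - (k2 μ x y) * M) := by nlinarith
      have := nonneg_of_mul_nonneg_right this (by positivity)
      linarith
    have h6 : k2 μ x y ≤ ((1 / 2 + 2 * δ) * M + 1) / M := by
      rw [le_div_iff₀ hMR]; exact h5
    have h7 : ((1 / 2 + 2 * δ) * M + 1) / (M:ℝ) = 1 / 2 + 2 * δ + 1 / M := by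
      field_simp
    linarith
  refine le_of_forall_pos_le_add fun ε hε => ?_
  obtain ⟨m, hm⟩ := exists_nat_gt (2 / ε)
  have hmpos : (0:ℝ) < m := lt_trans (by positivity) hm
  have h1 := key (ε / 4) (by positivity) m (by exact_mod_cast hmpos)
  have h2 : 1 / (m:ℝ) ≤ ε / 2 := by
    rw [div_lt_iff₀ hε] at hm
    rw [div_le_iff₀ hmpos]
    nlinarith
  linarith

end

lemma ae_InSupp (μ : Measure (ℝ × ℝ)) : ∀ᵐ x ∂μ, InSupp μ x := by
  rw [ae_iff]
  refine measure_null_of_locally_null _ fun x hx => ?_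
  have hx' : ¬ InSupp μ x := hx
  unfold InSupp at hx'
  push Not at hx'
  obtain ⟨r, hr, h0⟩ := hx'
  exact ⟨Metric.closedBall x r, mem_nhdsWithin_of_mem_nhds (Metric.closedBall_mem_nhds x hr),
    le_antisymm h0 bot_le⟩

lemma exists_of_pos (μ : Measure (ℝ × ℝ)) (P : ℝ × ℝ → Prop) (hP : ∀ᵐ x ∂μ, P x)
    (s : Set (ℝ × ℝ)) (hs : 0 < μ s) : ∃ x ∈ s, P x := by
  by_contra hcon
  push Not at hcon
  have h1 : s ⊆ {x | ¬ P x} := fun x hx => hcon x hx
  have h2 : μ {x | ¬ P x} = 0 := ae_iff.1 hP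
  exact hs.ne' (measure_mono_null h1 h2)

lemma ae_DirPt (D : Set (ℝ × ℝ)) (hD : Admissible D) :
    ∀ᵐ x ∂(cond volume D), DirPt (cond volume D) x := by
  obtain ⟨hDm, hD0, hDt⟩ := hD
  have hall : ∀ᵐ x ∂(volume.restrict D), ∀ K : ℕ,
      ∀ {ι : Type} {l : Filter ι} (w : ι → ℝ × ℝ) (δ : ι → ℝ) (_ : Tendsto δ l (𝓝[>] 0))
      (_ : ∀ᶠ j in l, x ∈ Metric.closedBall (w j) (K * δ j)),
      Tendsto (fun j => volume (D ∩ Metric.closedBall (w j) (δ j)) /
        volume (Metric.closedBall (w j) (δ j))) l (𝓝 1) := by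
    rw [ae_all_iff]
    intro K
    filter_upwards [IsUnifLocDoublingMeasure.ae_tendsto_measure_inter_div
      (volume : Measure (ℝ × ℝ)) D (K:ℝ)] with x hx ι l w δ h1 h2
    exact hx w δ h1 h2
  have hall2 : ∀ᵐ x ∂(cond volume D), ∀ K : ℕ,
      ∀ {ι : Type} {l : Filter ι} (w : ι → ℝ × ℝ) (δ : ι → ℝ) (_ : Tendsto δ l (𝓝[>] 0))
      (_ : ∀ᶠ j in l, x ∈ Metric.closedBall (w j) (K * δ j)),
      Tendsto (fun j => volume (D ∩ Metric.closedBall (w j) (δ j)) /
        volume (Metric.closedBall (w j) (δ j))) l (𝓝 1) := Measure.ae_smul_measure hall _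
  filter_upwards [hall2] with x hx u η hη
  -- scale factor
  obtain ⟨κ, hκ⟩ := exists_nat_gt (1 / η)
  have hκpos : (0:ℝ) < κ := lt_trans (by positivity) hκ
  obtain ⟨K, hK⟩ := exists_nat_gt (κ * ‖u‖)
  have h1 := @hx K ℝ (𝓝[>] (0:ℝ)) (fun δ : ℝ => x + (δ * κ) • u) (fun δ : ℝ => δ) tendsto_id (by
    filter_upwards [self_mem_nhdsWithin] with δ hδ
    have hδ' : 0 < δ := hδ
    rw [Metric.mem_closedBall, dist_eq_norm]
    have : x - (x + (δ * κ) • u) = -((δ * κ) • u) := by abel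
    rw [this, norm_neg, norm_smul, Real.norm_eq_abs, abs_of_pos (mul_pos hδ' hκpos)]
    nlinarith)
  have h2 : ∀ᶠ δ : ℝ in 𝓝[>] (0:ℝ), 0 < volume (D ∩ Metric.closedBall (x + (δ * κ) • u) δ) /
        volume (Metric.closedBall (x + (δ * κ) • u) δ) :=
    h1.eventually (Ioi_mem_nhds one_pos)
  have h3 : ∀ᶠ δ : ℝ in 𝓝[>] (0:ℝ), δ ∈ Set.Ioo (0:ℝ) (η / κ) := Ioo_mem_nhdsGT (by positivity)
  obtain ⟨δ, hδ1, hδ2⟩ := (h2.and h3).exists
  have hpos : 0 < volume (D ∩ Metric.closedBall (x + (δ * κ) • u) δ) := by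
    rw [pos_iff_ne_zero]
    intro h0
    rw [h0] at hδ1
    simp at hδ1
  have hμpos : 0 < (cond volume D) (Metric.closedBall (x + (δ * κ) • u) δ) := by
    rw [cond_apply' Metric.isClosed_closedBall.measurableSet]
    exact ENNReal.mul_pos (ENNReal.inv_ne_zero.2 hDt.ne) hpos.ne'
  obtain ⟨y, hy, hys⟩ := exists_of_pos _ _ (ae_InSupp (cond volume D)) _ hμpos
  have hs : 0 < δ * κ := mul_pos hδ2.1 hκpos
  refine ⟨δ * κ, (1 / (δ * κ)) • (y - x), hs, ?_, ?_, ?_⟩
  · have := hδ2.2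
    rw [lt_div_iff₀ hκpos] at this
    exact this
  · rw [dist_eq_norm]
    have e : (1 / (δ * κ)) • (y - x) - u = (1 / (δ * κ)) • (y - (x + (δ * κ) • u)) := by
      rw [smul_sub, smul_sub, smul_add, smul_smul, one_div, inv_mul_cancel₀ hs.ne', one_smul]
      abel
    rw [e, norm_smul, Real.norm_eq_abs, abs_of_pos (by positivity)]
    have h4 : ‖y - (x + (δ * κ) • u)‖ ≤ δ := by
      rw [← dist_eq_norm]; exact Metric.mem_closedBall.1 hy
    have h5 : 1 / (δ * κ) * ‖y - (x + (δ * κ) • u)‖ ≤ 1 / (δ * κ) * δ :=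
      mul_le_mul_of_nonneg_left h4 (by positivity)
    have h6 : 1 / (δ * κ) * δ = 1 / κ := by
      have := hδ2.1.ne'
      field_simp
    rw [h6] at h5
    refine lt_of_le_of_lt h5 ?_
    rw [div_lt_iff₀ hκpos]
    rw [div_lt_iff₀ hη] at hκ
    linarith
  · have : x + (δ * κ) • (1 / (δ * κ)) • (y - x) = y := by
      rw [smul_smul, mul_one_div_cancel hs.ne', one_smul]; abel
    rw [this]; exact hys

section
variable (μ : Measure (ℝ × ℝ)) [IsProbabilityMeasure μ] (hac : μ ≪ volume)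
include hac

/-- from a direction point one reaches direction points in every direction -/
lemma DirPt_reach (hdir : ∀ᵐ x ∂μ, DirPt μ x) (x : ℝ × ℝ) (hx : DirPt μ x) (u : ℝ × ℝ) (η : ℝ)
    (hη : 0 < η) : ∃ s : ℝ, ∃ v : ℝ × ℝ, 0 < s ∧ s < η ∧ dist v u < η ∧ DirPt μ (x + s • v) := by
  obtain ⟨s, v, hs0, hsη, hvη, hsupp⟩ := hx u (η / 2) (by positivity)
  have hr : 0 < s * (η / 2) := by positivity
  obtain ⟨y, hy, hyd⟩ := exists_of_pos _ _ hdir _ (hsupp (s * (η / 2)) hr)
  refine ⟨s, (1 / s) • (y - x), hs0, by linarith, ?_, ?_⟩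
  · have h1 : dist ((1 / s) • (y - x)) v ≤ η / 2 := by
      rw [dist_eq_norm]
      have e : (1 / s) • (y - x) - v = (1 / s) • (y - (x + s • v)) := by
        rw [smul_sub, smul_sub, smul_add, smul_smul, one_div, inv_mul_cancel₀ hs0.ne', one_smul]
        abel
      rw [e, norm_smul, Real.norm_eq_abs, abs_of_pos (by positivity), one_div,
        inv_mul_le_iff₀ hs0, ← dist_eq_norm]
      exact Metric.mem_closedBall.1 hy
    have := dist_triangle ((1 / s) • (y - x)) v u
    linarith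
  · have : x + s • (1 / s) • (y - x) = y := by
      rw [smul_smul, mul_one_div_cancel hs0.ne', one_smul]; abel
    rw [this]; exact hyd

lemma all_halving (hmin : ∀ D, Admissible D → phi μ ≤ phi (cond volume D))
    (hdir : ∀ᵐ x ∂μ, DirPt μ x) (x : ℝ × ℝ) (hx : DirPt μ x) (u : ℝ × ℝ) (hu : u ≠ 0) :
    mp μ x u = 1 / 2 := by
  have hle : Psi μ x 0 u ≤ 1 / 2 := by
    by_contra hcon
    push Not at hcon
    have hc := continuousAt_Psi μ hac x 0 u hu
    have e1 : ∀ᶠ p in 𝓝 (x, (0:ℝ), u), 1 / 2 < Psi μ p.1 p.2.1 p.2.2 :=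
      hc.eventually (Ioi_mem_nhds hcon)
    have e2 : ∀ᶠ p in 𝓝 (x, (0:ℝ), u), p.2.2 ≠ 0 := by
      have hc : ContinuousAt (fun p : (ℝ × ℝ) × ℝ × (ℝ × ℝ) => p.2.2) (x, (0:ℝ), u) := by fun_prop
      exact hc.eventually (isOpen_ne.mem_nhds hu)
    obtain ⟨η, hη, hall⟩ := Metric.eventually_nhds_iff.1 (e1.and e2)
    obtain ⟨s, v, hs0, hsη, hvη, hd⟩ := DirPt_reach μ hac hdir x hx u η hη
    have hdist : dist (x, s, v) (x, (0:ℝ), u) < η := by
      rw [Prod.dist_eq]
      refine max_lt ?_ ?_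
      · simpa using hη
      · rw [Prod.dist_eq]
        refine max_lt ?_ hvη
        rw [Real.dist_eq, sub_zero, abs_of_pos hs0]; exact hsη
    obtain ⟨h1, h2⟩ := hall hdist
    simp only at h1 h2
    rw [← k2_eq_Psi μ x s hs0.ne' v] at h1
    have hne : x ≠ x + s • v := by
      intro h
      rcases smul_eq_zero.1 (left_eq_add.1 h) with h3 | h3
      · exact hs0.ne' h3
      · exact h2 h3
    have := k2_le_half μ hac hmin x (x + s • v) hx hd hne
    linarith
  rw [Psi_zero μ hac x u hu] at hle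
  nlinarith [sq_nonneg (2 * mp μ x u - 1)]

lemma no_min (hmin : ∀ D, Admissible D → phi μ ≤ phi (cond volume D))
    (hdir : ∀ᵐ x ∂μ, DirPt μ x) : False := by
  obtain ⟨x, hx⟩ := hdir.exists
  obtain ⟨y, hy, hyx⟩ := (hdir.and (ae_ne μ hac x)).exists
  obtain ⟨z, hz, hxyz⟩ := ((ae_InSupp μ).and (ae_ori_ne μ hac x y (Ne.symm hyx))).exists
  -- the direction
  set u : ℝ × ℝ := z - (1 / 2 : ℝ) • (x + y) with hu
  have hori : cr u (y - x) ≠ 0 := by
    intro h
    apply hxyz
    have : cr u (y - x) = - ori x y z := by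
      rw [hu]; unfold cr ori; simp; ring
    rw [this] at h
    linarith
  have hu0 : u ≠ 0 := by
    intro h
    rw [h] at hori
    apply hori
    unfold cr; simp
  have hzx : cr u (z - x) = cr u (y - x) / 2 := by
    rw [hu]; unfold cr; simp; ring
  have hzy : cr u (z - y) = - (cr u (y - x) / 2) := by
    rw [hu]; unfold cr; simp; ring
  have h1 := all_halving μ hac hmin hdir x hx u hu0
  have h2 := all_halving μ hac hmin hdir y hy u hu0
  have hadd : ∀ q : ℝ × ℝ, cr u (q - x) = cr u (q - y) + cr u (y - x) := by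
    intro q; unfold cr; simp; ring
  -- general fact: two nested half planes of equal measure
  have key : ∀ a b : ℝ × ℝ, mp μ a u = 1 / 2 → mp μ b u = 1 / 2 → 0 < cr u (z - a) →
      cr u (z - b) < 0 → (∀ q : ℝ × ℝ, 0 < cr u (q - b) → 0 < cr u (q - a)) → False := by
    intro a b ha hb hza hzb hsub
    have hopen : IsOpen {q : ℝ × ℝ | 0 < cr u (q - a) ∧ cr u (q - b) < 0} := by
      have o1 : IsOpen {q : ℝ × ℝ | 0 < cr u (q - a)} :=
        isOpen_lt continuous_const (by unfold cr; fun_prop)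
      have o2 : IsOpen {q : ℝ × ℝ | cr u (q - b) < 0} :=
        isOpen_lt (by unfold cr; fun_prop) continuous_const
      exact o1.inter o2
    obtain ⟨r, hr, hball⟩ := Metric.isOpen_iff.1 hopen z ⟨hza, hzb⟩
    have hposball := hz (r / 2) (by positivity)
    have hsubset : Metric.closedBall z (r / 2) ⊆
        {q : ℝ × ℝ | 0 < cr u (q - a)} \ {q : ℝ × ℝ | 0 < cr u (q - b)} := by
      intro q hq
      have := hball (Metric.closedBall_subset_ball (by linarith) hq)
      exact ⟨this.1, fun h => lt_asymm h this.2⟩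
    have hdiff : μ.real ({q : ℝ × ℝ | 0 < cr u (q - a)} \ {q : ℝ × ℝ | 0 < cr u (q - b)}) = 0 := by
      have hsub' : {q : ℝ × ℝ | 0 < cr u (q - b)} ⊆ {q : ℝ × ℝ | 0 < cr u (q - a)} :=
        fun q hq => hsub q hq
      rw [measureReal_sdiff hsub' (measurableSet_half b u)]
      have e1 : μ.real {q : ℝ × ℝ | 0 < cr u (q - a)} = 1 / 2 := ha
      have e2 : μ.real {q : ℝ × ℝ | 0 < cr u (q - b)} = 1 / 2 := hb
      rw [e1, e2]; simp
    have h3 : μ ({q : ℝ × ℝ | 0 < cr u (q - a)} \ {q : ℝ × ℝ | 0 < cr u (q - b)}) = 0 :=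
      (measureReal_eq_zero_iff (measure_ne_top _ _)).1 hdiff
    exact hposball.ne' (measure_mono_null hsubset h3)
  rcases lt_or_gt_of_ne hori with h | h
  · -- cr u (y - x) < 0
    refine key y x h2 h1 (by rw [hzy]; linarith) (by rw [hzx]; linarith) fun q hq => ?_
    have := hadd q
    linarith
  · refine key x y h1 h2 (by rw [hzx]; linarith) (by rw [hzy]; linarith) fun q hq => ?_
    have := hadd q
    linarith

end

/-- no admissible set minimises the probability of convex position -/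
lemma not_min (D : Set (ℝ × ℝ)) (hD : Admissible D) :
    ∃ D', Admissible D' ∧ phi (cond volume D') < phi (cond volume D) := by
  by_contra hcon
  push Not at hcon
  have hp : IsProbabilityMeasure (cond volume D) :=
    cond_isProbabilityMeasure_of_finite hD.2.1.ne' hD.2.2.ne
  exact no_min (cond volume D) cond_absolutelyContinuous (fun D' hD' => hcon D' hD')
    (ae_DirPt D hD)

end Pool.Agent.Helper120.Sylvester
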